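import Pool.Agent.Y687.N.Desc2
import Pool.Agent.Y155.Z701.Exi

/-!
# Existence of the primes `q = 3 mod 8` with odd determinant
-/

set_option autoImplicit false
set_option linter.style.haveILetI false

open Finset

namespace Pool.Agent.Y687.N

open Pool.Agent.Y687
open Pool.Agent.Z700 (pr Yd lres xrt)
open Pool.Agent.Z701 (Sp)
open Pool.Agent.Y700 (Rt)

/-- the primes `q = 3 mod 8` which are inert in `ℚ(√-7)` -/
def NegP (q : ℕ) : Prop := q.Prime ∧ q % 8 = 3 ∧ (q % 7 = 3 ∨ q % 7 = 5 ∨ q % 7 = 6)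

theorem isSquare_mul_iff {p : ℕ} [Fact p.Prime] {a b : ZMod p} (ha : a ≠ 0) (hb : b ≠ 0) :
    IsSquare (a * b) ↔ (IsSquare a ↔ IsSquare b) := by
  have h1 := quadraticChar_one_iff_isSquare (mul_ne_zero ha hb)
  have h2 := quadraticChar_one_iff_isSquare ha
  have h3 := quadraticChar_one_iff_isSquare hb
  rw [← h1, ← h2, ← h3, map_mul]
  rcases quadraticChar_dichotomy ha with h4 | h4 <;> rcases quadraticChar_dichotomy hb with h5 | h5 <;>
    rw [h4, h5] <;> decide

theorem RtZ_one (p : ℕ) : RtZ 1 p ↔ Rt p 1 := by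
  unfold RtZ Rt
  push_cast
  rfl

/-- scaling of the roots -/
theorem RtZ_iff {m : ℤ} {p : ℕ} (h : Sp p) (hm : (m : ZMod p) ≠ 0) :
    RtZ m p ↔ (Rt p 1 ↔ IsSquare (m : ZMod p)) := by
  haveI : Fact p.Prime := ⟨h.1⟩
  obtain ⟨n2, n7, -, -, ⟨δ, hδ⟩⟩ := sp_sq h
  have n4 : (4 : ZMod p) ≠ 0 := by
    rw [show (4 : ZMod p) = 2 * 2 by norm_num]; exact mul_ne_zero n2 n2
  set ρ : ZMod p := (-13 + 7 * δ) / 2 with hρ
  have hρ2 : 2 * ρ = -13 + 7 * δ := by rw [hρ]; field_simp
  have hroot : ρ ^ 2 + 13 * ρ + 128 = 0 := by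
    apply mul_left_cancel₀ n4
    linear_combination (2 * ρ + (-13 + 7 * δ) + 26) * hρ2 - 49 * hδ
  have hρ0 : ρ ≠ 0 := by
    intro h0
    rw [h0] at hroot
    have h128 : (2 : ZMod p) ^ 7 = 0 := by linear_combination hroot
    exact pow_ne_zero 7 n2 h128
  have h1 := root1 (m := 1) h (by push_cast; exact one_ne_zero) ρ (by
    push_cast
    linear_combination hroot)
  have h2 := root1 h hm ((m : ZMod p) * ρ) (by linear_combination (m : ZMod p) ^ 2 * hroot)
  rw [isSquare_mul_iff hm hρ0] at h2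
  rw [← RtZ_one]
  by_cases k1 : RtZ 1 p <;> by_cases k2 : RtZ m p <;> by_cases k3 : IsSquare (m : ZMod p) <;>
    simp_all

/-- the diagonal part for `-q` -/
theorem xrZ_neg {p q : ℕ} (h : Sp p) (hq : q.Prime) (hq4 : q % 4 = 3) :
    Odd (xrZ (-q) p) ↔ Odd (xrt p + lres p q) := by
  haveI : Fact p.Prime := ⟨h.1⟩
  have hpq : q ≠ p := by
    rintro rfl
    have := h.2.1
    omega
  have hq0 : (q : ZMod p) ≠ 0 := by
    intro h0
    rw [ZMod.natCast_eq_zero_iff] at h0
    exact hpq ((Nat.prime_dvd_prime_iff_eq h.1 hq).1 h0).symm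
  have hm : ((-(q : ℤ) : ℤ) : ZMod p) ≠ 0 := by
    push_cast
    exact neg_ne_zero.2 hq0
  have h1 := RtZ_iff h hm
  obtain ⟨-, -, -, hi, -⟩ := sp_sq h
  have h2 : IsSquare (((-(q : ℤ) : ℤ)) : ZMod p) ↔ IsSquare ((q : ℤ) : ZMod p) := by
    have e : (((-(q : ℤ) : ℤ)) : ZMod p) = (-1) * (q : ZMod p) := by push_cast; ring
    rw [e, isSquare_mul_iff (neg_ne_zero.2 one_ne_zero) hq0]
    push_cast
    simp [hi]
  have hrec : jacobiSym p q = jacobiSym q p :=
    jacobiSym.quadratic_reciprocity_one_mod_four (by have := h.2.1; omega)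
      (by rw [Nat.odd_iff]; omega)
  have h3 : lres p q = if IsSquare ((q : ℤ) : ZMod p) then 0 else 1 := by
    unfold lres
    rw [hrec]
    simp only [or_self]
    by_cases hs : IsSquare ((q : ℤ) : ZMod p)
    · rw [if_pos hs, if_neg]
      rw [← jacobiSym.legendreSym.to_jacobiSym]
      rw [(legendreSym.eq_one_iff p (by push_cast; exact hq0)).2 hs]
      norm_num
    · rw [if_neg hs, if_pos]
      rw [← jacobiSym.legendreSym.to_jacobiSym]
      exact (legendreSym.eq_neg_one_iff p).2 hs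
  rw [h2] at h1
  rw [h3]
  have a1 : RtZ (-(q : ℤ)) p → xrZ (-(q : ℤ)) p = 1 := fun h => by unfold xrZ; exact if_pos h
  have a2 : ¬ RtZ (-(q : ℤ)) p → xrZ (-(q : ℤ)) p = 0 := fun h => by unfold xrZ; exact if_neg h
  have b1 : Rt p 1 → xrt p = 1 := fun h => by unfold xrt; exact if_pos h
  have b2 : ¬ Rt p 1 → xrt p = 0 := fun h => by unfold xrt; exact if_neg h
  by_cases k2 : Rt p 1 <;> by_cases k3 : IsSquare ((q : ℤ) : ZMod p)
  · rw [a1 (h1.2 ⟨fun _ => k3, fun _ => k2⟩), b1 k2, if_pos k3]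
    decide
  · rw [a2 (fun h => k3 ((h1.1 h).1 k2)), b1 k2, if_neg k3]
    decide
  · rw [a2 (fun h => k2 ((h1.1 h).2 k3)), b2 k2, if_pos k3]
    decide
  · rw [a1 (h1.2 ⟨fun h => absurd h k2, fun h => absurd h k3⟩), b2 k2, if_neg k3]
    decide

/-- infinitely many inert primes with given symbols -/
theorem inf_neg (F : Finset ℕ) (hF : ∀ p ∈ F, Sp p) (s : ℕ → ℤ)
    (hs : ∀ p ∈ F, s p = 1 ∨ s p = -1) :
    {q : ℕ | q.Prime ∧ q % 56 = 3 ∧ ∀ p ∈ F, jacobiSym q p = s p}.Infinite := by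
  classical
  have hr : ∀ p : ℕ, ∃ r : ℕ, p ∈ F → jacobiSym r p = s p := by
    intro p
    by_cases hp : p ∈ F
    · obtain ⟨r, hr⟩ := Pool.Agent.Y155.Z701.exists_res (hF p hp) (hs p hp)
      exact ⟨r, fun _ => hr⟩
    · exact ⟨0, fun h => absurd h hp⟩
  choose r hr using hr
  have h56 : 56 ∉ F := fun h => by
    have := (hF 56 h).2.1
    omega
  have hc56 : ∀ p ∈ F, Nat.Coprime 56 p := by
    intro p hp
    obtain ⟨pp, p8, p7⟩ := hF p hp
    rw [show (56 : ℕ) = 2 ^ 3 * 7 by norm_num]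
    refine Nat.Coprime.mul_left (Nat.Coprime.pow_left 3
      ((Nat.coprime_primes Nat.prime_two pp).2 (by omega)))
      ((Nat.coprime_primes (by norm_num) pp).2 (by omega))
  have hpair : Set.Pairwise (↑(insert 56 F) : Set ℕ) (Function.onFun Nat.Coprime id) := by
    intro a ha b hb hab
    simp only [Finset.coe_insert, Set.mem_insert_iff, Finset.mem_coe] at ha hb
    simp only [Function.onFun, id]
    rcases ha with rfl | ha <;> rcases hb with rfl | hb
    · exact absurd rfl hab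
    · exact hc56 b hb
    · exact (hc56 a ha).symm
    · exact (Nat.coprime_primes (hF a ha).1 (hF b hb).1).mpr hab
  have hne : ∀ i ∈ insert 56 F, id i ≠ 0 := by
    intro i hi
    rcases Finset.mem_insert.mp hi with rfl | hi
    · norm_num
    · exact (hF i hi).1.ne_zero
  obtain ⟨n, hn⟩ := Nat.chineseRemainderOfFinset (fun i => if i = 56 then 3 else r i) id
    (insert 56 F) hne hpair
  simp only [id] at hn
  have hn1 : n ≡ 3 [MOD 56] := by
    have := hn 56 (Finset.mem_insert_self _ _)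
    simpa using this
  have hn2 : ∀ p ∈ F, n ≡ r p [MOD p] := by
    intro p hp
    have := hn p (Finset.mem_insert_of_mem hp)
    rwa [if_neg (fun h : p = 56 => h56 (h ▸ hp))] at this
  set N := ∏ i ∈ insert 56 F, i with hN
  have hN0 : N ≠ 0 := Finset.prod_ne_zero_iff.mpr hne
  haveI : NeZero N := ⟨hN0⟩
  have hcop : Nat.Coprime n N := by
    refine Nat.Coprime.prod_right fun i hi => ?_
    rcases Finset.mem_insert.mp hi with rfl | hi
    · rw [Nat.coprime_iff_gcd_eq_one, hn1.gcd_eq]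
      norm_num
    · rw [Nat.coprime_iff_gcd_eq_one, (hn2 i hi).gcd_eq]
      have h1 := hr i hi
      by_contra hg
      have h2 : jacobiSym (r i) i = 0 := by
        rw [jacobiSym.eq_zero_iff]
        exact ⟨(hF i hi).1.ne_zero, by rwa [Int.gcd_natCast_natCast]⟩
      rw [h2] at h1
      rcases hs i hi with h | h <;> rw [h] at h1 <;> norm_num at h1
  have hunit : IsUnit ((n : ℕ) : ZMod N) := by
    rw [ZMod.isUnit_iff_coprime]
    exact hcop
  refine (Nat.infinite_setOfPred_prime_and_eq_mod hunit).mono ?_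
  rintro q ⟨hq, hqn⟩
  rw [ZMod.natCast_eq_natCast_iff] at hqn
  have hdv : ∀ i ∈ insert 56 F, i ∣ N := fun i hi => Finset.dvd_prod_of_mem _ hi
  have hq1 : q ≡ 3 [MOD 56] := (hqn.of_dvd (hdv 56 (Finset.mem_insert_self _ _))).trans hn1
  have hq2 : ∀ p ∈ F, q ≡ r p [MOD p] := fun p hp =>
    (hqn.of_dvd (hdv p (Finset.mem_insert_of_mem hp))).trans (hn2 p hp)
  refine ⟨hq, by simpa [Nat.ModEq] using hq1, ?_⟩
  intro p hp
  rw [← hr p hp]
  apply jacobiSym.mod_left'
  exact_mod_cast hq2 p hp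

/-- for every finite set of split primes there are infinitely many `q` -/
theorem inf_q (P : Finset ℕ) (hP : ∀ p ∈ P, Sp p) :
    {q : ℕ | NegP q ∧ Odd (Yd lres (xrZ (-q)) P)}.Infinite := by
  classical
  obtain ⟨e, he, ho⟩ := Pool.Agent.Y155.Z701.exists_e lres P xrt
  have hinf := inf_neg P hP (fun p => if e p = 1 then -1 else 1) (fun p _ => by
    by_cases h1 : e p = 1
    · right; simp [h1]
    · left; simp [h1])
  refine hinf.mono ?_
  rintro q ⟨hq, hq56, hJ⟩
  refine ⟨⟨hq, by omega, by omega⟩, ?_⟩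
  refine (Pool.Agent.Y155.Z701.yd_mod fun p hp => ?_).1 ho
  rw [xrZ_neg (hP p hp) hq (by omega)]
  have hrec : jacobiSym p q = jacobiSym q p :=
    jacobiSym.quadratic_reciprocity_one_mod_four (by have := (hP p hp).2.1; omega)
      (by rw [Nat.odd_iff]; omega)
  have hJp : jacobiSym q p = if e p = 1 then -1 else 1 := hJ p hp
  have e4 : lres p q = e p := by
    unfold lres
    rw [hrec, hJp]
    rcases he p with h1 | h1
    · rw [h1]; norm_num
    · rw [h1]; norm_num
  rw [e4]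

end Pool.Agent.Y687.N
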