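import Pool.Agent.Y687.N.Tot
import Pool.Agent.Y614.NEG.Card

/-!
# The number of vectors of norm `n` and the value of the sum of the symbols
-/

set_option autoImplicit false
set_option linter.style.haveILetI false

open Finset

namespace Pool.Agent.Y687.N

open Pool.Agent.Y687
open Pool.Agent.Z700 (un vec loc V3)

/-- change of a sign -/
def flip (i : Fin 3) (v : V3) : V3 := Function.update v i (-v i)

theorem flip_flip (i : Fin 3) (v : V3) : flip i (flip i v) = v := by
  unfold flip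
  simp

theorem flip_mem {n : ℤ} {v : V3} (i : Fin 3) (h : v ∈ vec n) : flip i v ∈ vec n := by
  rw [Pool.Agent.Y614.NEG.mem_vec] at h ⊢
  unfold flip
  fin_cases i <;> simp <;> linarith

theorem four_dvd_card {n : ℕ} (h : n % 8 = 3) : 4 ∣ (vec n).card := by
  classical
  have hodd : ∀ v ∈ vec (n : ℤ), v 0 ≠ 0 ∧ v 1 ≠ 0 := by
    intro v hv
    rw [Pool.Agent.Y614.NEG.mem_vec] at hv
    have := Pool.Agent.Y614.NEG.odd_coords hv (by omega)
    constructor <;> intro h0 <;> omega
  have h1 : (vec n).card = 2 * ((vec n).filter fun v => 0 < v 0).card := by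
    rw [← Finset.card_filter_add_card_filter_not (s := vec (n : ℤ)) (fun v => 0 < v 0), two_mul]
    congr 1
    refine Finset.card_nbij' (flip 0) (flip 0) ?_ ?_ ?_ ?_
    · intro v hv
      simp only [coe_filter, Set.mem_ofPred_eq] at hv ⊢
      refine ⟨flip_mem 0 hv.1, ?_⟩
      have := (hodd v hv.1).1
      have e : flip 0 v 0 = - v 0 := by simp [flip]
      rw [e]
      have := hv.2
      omega
    · intro v hv
      simp only [coe_filter, Set.mem_ofPred_eq] at hv ⊢
      refine ⟨flip_mem 0 hv.1, ?_⟩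
      have e : flip 0 v 0 = - v 0 := by simp [flip]
      rw [e]
      have := hv.2
      omega
    · intro v _
      exact flip_flip 0 v
    · intro v _
      exact flip_flip 0 v
  have h2 : ((vec n).filter fun v => 0 < v 0).card =
      2 * (((vec n).filter fun v => 0 < v 0).filter fun v => 0 < v 1).card := by
    rw [← Finset.card_filter_add_card_filter_not (s := (vec (n : ℤ)).filter fun v => 0 < v 0)
      (fun v => 0 < v 1), two_mul]
    congr 1
    refine Finset.card_nbij' (flip 1) (flip 1) ?_ ?_ ?_ ?_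
    · intro v hv
      simp only [coe_filter, Set.mem_ofPred_eq, mem_filter] at hv ⊢
      have := (hodd v hv.1.1).2
      have e : flip 1 v 1 = - v 1 := by simp [flip]
      have e0 : flip 1 v 0 = v 0 := by simp [flip]
      refine ⟨⟨flip_mem 1 hv.1.1, by rw [e0]; exact hv.1.2⟩, ?_⟩
      rw [e]
      have := hv.2
      omega
    · intro v hv
      simp only [coe_filter, Set.mem_ofPred_eq, mem_filter] at hv ⊢
      have e : flip 1 v 1 = - v 1 := by simp [flip]
      have e0 : flip 1 v 0 = v 0 := by simp [flip]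
      refine ⟨⟨flip_mem 1 hv.1.1, by rw [e0]; exact hv.1.2⟩, ?_⟩
      rw [e]
      have := hv.2
      omega
    · intro v _
      exact flip_flip 1 v
    · intro v _
      exact flip_flip 1 v
  rw [h1, h2]
  exact ⟨(((vec n).filter fun v => 0 < v 0).filter fun v => 0 < v 1).card, by ring⟩

/-- the sum over `b` as a sum over `T` -/
theorem sum_b {n : ℕ} (h : n % 8 = 3) (f : ℕ → ℤ) :
    ∑ b ∈ (Ioo (-(n : ℤ)) n).filter (fun b : ℤ => Odd b), f ((n : ℤ) ^ 2 - b ^ 2).toNat =
      2 * ∑ T ∈ (range n).filter (fun T => Odd T), f (4 * (n - T) * T) := by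
  classical
  have key : ∀ T : ℕ, T < n → ((n : ℤ) ^ 2 - ((n : ℤ) - 2 * T) ^ 2).toNat = 4 * (n - T) * T := by
    intro T hT
    have e : (n : ℤ) ^ 2 - ((n : ℤ) - 2 * T) ^ 2 = ((4 * (n - T) * T : ℕ) : ℤ) := by
      push_cast [Nat.cast_sub hT.le]
      ring
    rw [e, Int.toNat_natCast]
  have h1 : ∑ b ∈ ((Ioo (-(n : ℤ)) n).filter (fun b : ℤ => Odd b)).filter (fun b => b % 4 = 1),
      f ((n : ℤ) ^ 2 - b ^ 2).toNat = ∑ T ∈ (range n).filter (fun T => Odd T), f (4 * (n - T) * T) := by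
    symm
    refine sum_nbij (fun T : ℕ => (n : ℤ) - 2 * T) ?_ ?_ ?_ ?_
    · intro T hT
      simp only [mem_filter, mem_range, mem_Ioo] at hT ⊢
      obtain ⟨h1, k, hk⟩ := hT
      refine ⟨⟨⟨by omega, by omega⟩, ?_⟩, by omega⟩
      rw [Int.odd_iff]
      omega
    · intro T _ T' _ e
      simp only at e
      omega
    · intro b hb
      simp only [coe_filter, mem_filter, mem_Ioo, Set.mem_ofPred_eq] at hb
      obtain ⟨⟨⟨h1, h2⟩, h3⟩, h4⟩ := hb
      refine ⟨(((n : ℤ) - b) / 2).toNat, ?_, ?_⟩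
      · simp only [coe_filter, mem_range, Set.mem_ofPred_eq]
        rw [Nat.odd_iff]
        omega
      · simp only
        omega
    · intro T hT
      rw [mem_filter, mem_range] at hT
      rw [key T hT.1]
  have h2 : ∑ b ∈ ((Ioo (-(n : ℤ)) n).filter (fun b : ℤ => Odd b)).filter (fun b => ¬ b % 4 = 1),
      f ((n : ℤ) ^ 2 - b ^ 2).toNat =
      ∑ b ∈ ((Ioo (-(n : ℤ)) n).filter (fun b : ℤ => Odd b)).filter (fun b => b % 4 = 1),
      f ((n : ℤ) ^ 2 - b ^ 2).toNat := by
    refine sum_nbij' (fun b => -b) (fun b => -b) ?_ ?_ ?_ ?_ ?_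
    · intro b hb
      simp only [mem_filter, mem_Ioo, Int.odd_iff] at hb ⊢
      omega
    · intro b hb
      simp only [mem_filter, mem_Ioo, Int.odd_iff] at hb ⊢
      omega
    · intro b _
      exact neg_neg b
    · intro b _
      exact neg_neg b
    · intro b _
      rw [neg_sq]
  rw [← sum_filter_add_sum_filter_not _ (fun b : ℤ => b % 4 = 1), h2, h1]
  ring

/-- the number of the vectors of norm `n` is minus `24` times the character sum -/
theorem card_eq (hL : S_LVL2) (hC : S_C1B) (h21 : S_C21) (hK : S_CARD) {n : ℕ} (h : Gn n) :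
    ((vec n).card : ℚ) = -24 * HH n := by
  have h1 := sum_one hC h21 h
  have h2 := sum_lvl2 hL h
  have h3 := hK n h.sq h.h8
  rw [sum_b h.h8] at h3
  have h4 : (2 : ℚ) * ((∑ T ∈ (range n).filter (fun T => Odd T), loc1 n (4 * (n - T) * T) : ℤ) : ℚ) =
      24 * HH n ^ 2 + 2 * HH n := by
    rw [← h2]
    have := congrArg (fun z : ℤ => (z : ℚ)) h1
    push_cast at this
    push_cast
    exact this.symm
  have h5 := congrArg (fun z : ℤ => (z : ℚ)) h3
  rw [Int.cast_pow, Int.cast_natCast] at h5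
  have h6 : ((vec n).card : ℚ) ^ 2 = 2 * (vec n).card + 24 * (24 * HH n ^ 2 + 2 * HH n) := by
    rw [h5, ← h4]
    push_cast
    ring
  have h7 : (((vec n).card : ℚ) - 2 - 24 * HH n) * ((vec n).card + 24 * HH n) = 0 := by
    linear_combination h6
  rcases mul_eq_zero.1 h7 with h8 | h8
  · exfalso
    -- integrality
    have hn0 : (n : ℚ) ≠ 0 := by exact_mod_cast h.ne
    obtain ⟨k, hk⟩ : ∃ k : ℤ, 2 * n * HH n = k := by
      refine ⟨∑ u ∈ range n, jacobiSym (u : ℤ) n * (if (n : ℤ) ∣ u then 0 else 2 * (u : ℤ) - (n : ℤ)), ?_⟩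
      unfold HH
      rw [mul_sum]
      push_cast
      refine sum_congr rfl fun u hu => ?_
      have hu := mem_range.1 hu
      unfold saw
      by_cases hd : (n : ℤ) ∣ (u : ℤ)
      · rw [if_pos hd, if_pos hd]
        simp
      · rw [if_neg hd, if_neg hd, Int.emod_eq_of_lt (by positivity) (by exact_mod_cast hu)]
        push_cast
        field_simp
    obtain ⟨c, hc⟩ := four_dvd_card h.h8
    have h9 : (12 : ℚ) * k = n * ((vec n).card - 2) := by
      rw [← hk]
      linear_combination (-(n : ℚ)) * h8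
    rw [hc] at h9
    have h10 : (12 : ℤ) * k = n * (((4 * c : ℕ) : ℤ) - 2) := by exact_mod_cast h9
    obtain ⟨m, hm⟩ : ∃ m : ℤ, (n : ℤ) = 2 * m + 1 := ⟨n / 2, by have := h.h8; omega⟩
    rw [hm] at h10
    push_cast at h10
    have h11 : (4 : ℤ) ∣ 2 := ⟨-(3 * k) + 2 * m * c + c - m, by linarith⟩
    norm_num at h11
  · linarith

/-- **the value of the sum of the symbols** -/
theorem SS_value (hF : S_FORM) (hL : S_LVL2) (hC : S_C1B) (h21 : S_C21) (h27 : S_C27) (hK : S_CARD)
    {n : ℕ} (h : Gn n) (h7 : ¬ 7 ∣ n) (hj : jacobiSym 7 n = 1) {s : ℚ → ℤ} {a : ℕ → ℤ}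
    (H : SymbM s a) {g : ℤ}
    (hg : ((vec n).card : ℤ) ^ 2 = 64 * g ^ 2 +
      384 * ∑ T ∈ (range n).filter (fun T => Odd T ∧ 7 ∣ T), loc n (4 * (n - T) * T)) :
    SS s n n = 2 * s (1 / 3) * g ^ 2 := by
  have hcop : ∀ u ∈ un n, IsCoprime (14 * (u : ℤ)) (n : ℤ) := by
    intro u hu
    have hu := (mem_rr.1 (show u ∈ rr n from hu)).2
    have h3 : Nat.Coprime (14 * u) n := by
      refine Nat.Coprime.mul_left ?_ hu
      have : (14 : ℕ) = 2 * 7 := by norm_num
      rw [this]
      refine Nat.Coprime.mul_left ?_ ?_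
      · rw [Nat.Prime.coprime_iff_not_dvd Nat.prime_two]
        have := h.h8
        omega
      · rw [Nat.Prime.coprime_iff_not_dvd (by norm_num)]
        exact h7
    have := Nat.isCoprime_iff_coprime.2 h3
    push_cast at this
    exact this
  have h1 : ((SS s n n : ℤ) : ℚ) = s (1 / 3) * (18 * HH n ^ 2 - 6 *
      (2 * ((∑ T ∈ (range n).filter (fun T => Odd T ∧ 7 ∣ T), loc n (4 * (n - T) * T) : ℤ) : ℚ))) := by
    unfold SS
    push_cast
    have h2 : ∀ u ∈ rr n, (jacobiSym (u : ℤ) n : ℚ) * (s ((u : ℚ) / n) : ℚ) =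
        s (1 / 3) * ((jacobiSym (u : ℤ) n : ℚ) * EM u n) -
          (6 * s (1 / 3)) * ((jacobiSym (u : ℤ) n : ℚ) * Fq 7 n u) := by
      intro u hu
      have h3 := symbM_formula hF H n u h.odd (hcop u hu)
      rw [Int.cast_natCast] at h3
      rw [h3]
      ring
    rw [sum_congr rfl h2, sum_sub_distrib, ← mul_sum, ← mul_sum]
    have h4 := sum_EM h hj
    have h5 := congrArg (fun z : ℤ => (z : ℚ)) (sum_seven hC h27 h h7 hj)
    push_cast at h5
    have e1 : ∑ u ∈ rr n, (jacobiSym (u : ℤ) n : ℚ) * EM u n = 18 * HH n ^ 2 := h4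
    have e2 : ∑ u ∈ rr n, (jacobiSym (u : ℤ) n : ℚ) * (Fq 7 n u : ℚ) =
      2 * ∑ T ∈ (range n).filter (fun T => Odd T ∧ 7 ∣ T), (loc n (4 * (n - T) * T) : ℚ) := h5
    rw [e1, e2]
    ring
  have h2 := card_eq hL hC h21 hK h
  have h3 := congrArg (fun z : ℤ => (z : ℚ)) hg
  rw [Int.cast_pow, Int.cast_natCast, h2, Int.cast_add, Int.cast_mul, Int.cast_mul] at h3
  have h4 : ((SS s n n : ℤ) : ℚ) = ((2 * s (1 / 3) * g ^ 2 : ℤ) : ℚ) := by
    rw [h1]
    push_cast at h3 ⊢
    linear_combination (s (1 / 3) : ℚ) * (1 / 32) * h3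
  exact_mod_cast h4

end Pool.Agent.Y687.N
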