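import Pool.Agent.Y687.N.Exi
import Pool.Agent.Y687.N.Cls
import Pool.Agent.Y929.N.FORM
import Pool.Agent.Y971.N.LVL2
import Pool.Agent.Y888.N.C1B
import Pool.Agent.Y275.N.C2

/-!
# The twists by `-q * pr P`: assembly
-/

set_option autoImplicit false
set_option linter.style.haveILetI false

open Finset

namespace Pool.Agent.Y687.N

open Pool.Agent.Y687
open Pool.Agent.Z700 (pr Yd lres xrt vec loc un)
open Pool.Agent.Z701 (Sp)
open Pool.Agent.W97.MT (ap E14 II)

theorem f_FORM : S_FORM := Pool.Agent.Y929.N.FORM.t_FORM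
theorem f_LVL2 : S_LVL2 := Pool.Agent.Y971.N.t_LVL2
theorem f_C1B : S_C1B := Pool.Agent.Y888.N.t_C1B
theorem f_C21 : S_C21 := Pool.Agent.Y275.N.t_C21
theorem f_C27 : S_C27 := Pool.Agent.Y275.N.t_C27
theorem f_CARD : S_CARD := Pool.Agent.Y614.NEG.t_CARD

/-- the relation of the definite side -/
def Def (n : ℕ) (g : ℤ) : Prop := ((vec n).card : ℤ) ^ 2 = 64 * g ^ 2 +
  384 * ∑ T ∈ (range n).filter (fun T => Odd T ∧ 7 ∣ T), loc n (4 * (n - T) * T)

/-- the even part does not contribute -/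
theorem SS_even {n : ℕ} (h : Gn n) {s : ℚ → ℤ} (hneg : ∀ r, s (-r) = s r)
    (hper : ∀ r, s (r + 1) = s r) : SS s n n = 0 := by
  have h1 : ∑ u ∈ un n, jacobiSym (u : ℤ) n * s ((u : ℚ) / n) =
      ∑ u ∈ un n, -(jacobiSym (u : ℤ) n * s ((u : ℚ) / n)) := by
    have key : ∀ u ∈ un n, 0 < u ∧ u < n ∧ Nat.Coprime u n := by
      intro u hu
      have hu := mem_rr.1 (show u ∈ rr n from hu)
      refine ⟨?_, hu.1, hu.2⟩
      rcases Nat.eq_zero_or_pos u with h0 | h0
      · subst h0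
        have := hu.2
        rw [Nat.coprime_zero_left] at this
        have := h.h8
        omega
      · exact h0
    refine sum_nbij' (fun u => n - u) (fun u => n - u) ?_ ?_ ?_ ?_ ?_
    · intro u hu
      obtain ⟨k1, k2, k3⟩ := key u hu
      exact mem_rr.2 ⟨by omega, by
        rw [Nat.coprime_comm]; exact (Nat.coprime_self_sub_right k2.le).2 k3.symm⟩
    · intro u hu
      obtain ⟨k1, k2, k3⟩ := key u hu
      exact mem_rr.2 ⟨by omega, by
        rw [Nat.coprime_comm]; exact (Nat.coprime_self_sub_right k2.le).2 k3.symm⟩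
    · intro u hu
      obtain ⟨k1, k2, k3⟩ := key u hu
      show n - (n - u) = u
      omega
    · intro u hu
      obtain ⟨k1, k2, k3⟩ := key u hu
      show n - (n - u) = u
      omega
    · intro u hu
      obtain ⟨k1, k2, k3⟩ := key u hu
      have e : ((n - u : ℕ) : ℤ) = n - u := by
        rw [Nat.cast_sub k2.le]
      have e' : ((n - u : ℕ) : ℚ) = n - u := by
        rw [Nat.cast_sub k2.le]
      have hn : (n : ℚ) ≠ 0 := by exact_mod_cast h.ne
      rw [e, e']
      have e2 : jacobiSym ((n : ℤ) - u) n = -jacobiSym (u : ℤ) n := by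
        rw [jac_congr (x := (n : ℤ) - u) (y := (-1) * u) ⟨1, by ring⟩, jacobiSym.mul_left, h.jneg]
        ring
      have e3 : ((n : ℚ) - u) / n = -((u : ℚ) / n) + 1 := by field_simp; ring
      rw [e2, e3, hper, hneg]
      ring
  rw [sum_neg_distrib] at h1
  unfold SS
  have h2 : ∑ u ∈ rr n, jacobiSym (u : ℤ) n * s ((u : ℚ) / n) =
    -∑ u ∈ rr n, jacobiSym (u : ℤ) n * s ((u : ℚ) / n) := h1
  omega

theorem neg_facts {P : Finset ℕ} {q : ℕ} (hP : ∀ p ∈ P, Sp p) (hq : NegP q) :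
    q ∉ P ∧ Gn (q * pr P) ∧ ¬ 7 ∣ q * pr P ∧ jacobiSym 7 (q * pr P) = 1 ∧
      Squarefree ((pr P : ℤ) * (-(q : ℤ))) := by
  have hqP : q ∉ P := fun h => by
    have h1 := (hP q h).2.1
    have h2 := hq.2.1
    omega
  have hprP : ∀ p ∈ P, p.Prime := fun p hp => (hP p hp).1
  have hsq : Squarefree (q * pr P) := by
    have h1 : q * pr P = ∏ r ∈ insert q P, r := by
      unfold pr
      rw [Finset.prod_insert hqP]
    rw [h1]
    exact squarefree_prod fun r hr => by
      rcases Finset.mem_insert.1 hr with rfl | hr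
      · exact hq.1
      · exact hprP r hr
  have h8 : ∀ Q : Finset ℕ, (∀ p ∈ Q, p % 8 = 1) → pr Q % 8 = 1 := by
    intro Q
    induction Q using Finset.induction_on with
    | empty => intro _; simp [pr]
    | insert a Q ha ih =>
      intro hQ
      have e : pr (insert a Q) = a * pr Q := by unfold pr; rw [Finset.prod_insert ha]
      rw [e, Nat.mul_mod, hQ a (Finset.mem_insert_self _ _),
        ih fun p hp => hQ p (Finset.mem_insert_of_mem hp)]
  have h7 : ∀ Q : Finset ℕ, (∀ p ∈ Q, p % 7 = 1 ∨ p % 7 = 2 ∨ p % 7 = 4) →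
      pr Q % 7 = 1 ∨ pr Q % 7 = 2 ∨ pr Q % 7 = 4 := by
    intro Q
    induction Q using Finset.induction_on with
    | empty => intro _; simp [pr]
    | insert a Q ha ih =>
      intro hQ
      have e : pr (insert a Q) = a * pr Q := by unfold pr; rw [Finset.prod_insert ha]
      rw [e, Nat.mul_mod]
      have h1 := hQ a (Finset.mem_insert_self _ _)
      have h2 := ih fun p hp => hQ p (Finset.mem_insert_of_mem hp)
      rcases h1 with h1 | h1 | h1 <;> rcases h2 with h2 | h2 | h2 <;> rw [h1, h2] <;> decide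
  have k8 := h8 P fun p hp => (hP p hp).2.1
  have k7 := h7 P fun p hp => (hP p hp).2.2
  have n8 : (q * pr P) % 8 = 3 := by rw [Nat.mul_mod, hq.2.1, k8]
  have n7 : (q * pr P) % 7 = 3 ∨ (q * pr P) % 7 = 5 ∨ (q * pr P) % 7 = 6 := by
    rw [Nat.mul_mod]
    rcases hq.2.2 with h1 | h1 | h1 <;> rcases k7 with h2 | h2 | h2 <;> rw [h1, h2] <;> decide
  refine ⟨hqP, ⟨hsq, n8⟩, by omega, ?_, ?_⟩
  · have h1 := jacobiSym.quadratic_reciprocity_three_mod_four (a := 7) (b := q * pr P) (by norm_num)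
      (by omega)
    push_cast at h1 ⊢
    rw [h1]
    have h2 : jacobiSym ((q : ℤ) * (pr P : ℤ)) 7 = jacobiSym ((((q * pr P) % 7 : ℕ)) : ℤ) 7 := by
      refine jacobiSym.mod_left' ?_
      push_cast
      rw [Int.emod_emod_of_dvd _ (dvd_refl _)]
    rw [h2]
    rcases n7 with h3 | h3 | h3 <;> rw [h3] <;> norm_num
  · have h1 : Squarefree (((q * pr P : ℕ)) : ℤ) := Int.squarefree_natCast.2 hsq
    have h2 : (pr P : ℤ) * (-(q : ℤ)) = -((q * pr P : ℕ) : ℤ) := by push_cast; ring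
    rw [h2]
    exact fun x hx => h1 x ((dvd_neg).1 hx)

/-- **the main theorem, from the definite side** -/
theorem WB_neg {P : Finset ℕ} {q : ℕ} (hP : ∀ p ∈ P, Sp p) (hq : NegP q)
    (hodd : Odd (Yd lres (xrZ (-q)) P)) (hg : ∃ g : ℤ, g ≠ 0 ∧ Def (q * pr P) g) :
    WB ((pr P : ℤ) * (-(q : ℤ))) := by
  obtain ⟨hqP, hGn, h7, hj, hsqf⟩ := neg_facts hP hq
  haveI : Fact q.Prime := ⟨hq.1⟩
  have H : HypK (-(q : ℤ)) P := by
    refine ⟨by have := hq.2.1; omega, hP, hsqf, ?_, hodd⟩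
    intro r hr hrq
    have h1 : (r : ℤ) ∣ q := (dvd_neg).1 hrq
    have h2 : r = q := (Nat.prime_dvd_prime_iff_eq hr hq.1).1 (by exact_mod_cast h1)
    subst h2
    have q8 := hq.2.1
    have q2 : r ≠ 2 := by rintro rfl; omega
    have q7 : r ≠ 7 := by have := hq.2.2; rintro rfl; omega
    have hI : InertT r := ⟨hq.1, Or.inl hq.2.1, hq.2.2⟩
    exact ⟨q2, q7, hI.nsq7, hI.nsq2⟩
  refine ⟨?_, H.finite_set⟩
  obtain ⟨t, sp, sm, Op, Om, hOp, hOm, htt, hs, hnegp, hperp, hsm, h13⟩ := exists_symbM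
  obtain ⟨g, hg0, hg⟩ := hg
  have habs : ((pr P : ℤ) * (-(q : ℤ))).natAbs = q * pr P := by
    rw [Int.natAbs_mul, Int.natAbs_neg, Int.natAbs_natCast, Int.natAbs_natCast, mul_comm]
  have hv := SS_value f_FORM f_LVL2 f_C1B f_C21 f_C27 f_CARD hGn h7 hj hsm hg
  have hne : SS t (q * pr P) (q * pr P) ≠ 0 := by
    have h1 : SS t (q * pr P) (q * pr P) = SS sp (q * pr P) (q * pr P) + SS sm (q * pr P) (q * pr P) := by
      unfold SS
      rw [← Finset.sum_add_distrib]
      refine Finset.sum_congr rfl fun a _ => ?_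
      rw [htt]; ring
    rw [h1, SS_even hGn hnegp hperp, zero_add, hv]
    exact mul_ne_zero (mul_ne_zero (by norm_num) h13) (pow_ne_zero 2 hg0)
  refine exists_f_neD _ hsqf ?_ ?_ ?_ hOp hOm htt hs (by rw [habs]; exact hne)
  · rw [habs]
    have := hGn.h8
    omega
  · have := hGn.h8
    have h1 : (pr P : ℤ) * (-(q : ℤ)) = -((q * pr P : ℕ) : ℤ) := by push_cast; ring
    rw [h1]
    omega
  · rw [habs]
    rw [show (14 : ℕ) = 2 * 7 by norm_num]
    refine Nat.Coprime.mul_right ?_ ?_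
    · rw [Nat.coprime_comm, Nat.Prime.coprime_iff_not_dvd Nat.prime_two]
      have := hGn.h8
      omega
    · rw [Nat.coprime_comm, Nat.Prime.coprime_iff_not_dvd (by norm_num)]
      exact h7

end Pool.Agent.Y687.N
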