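import Pool.Agent.Y687.N.Expl

/-!
# Character sums of the sawtooth function and of the Dedekind sums
-/

set_option autoImplicit false
set_option linter.style.haveILetI false

open Finset

namespace Pool.Agent.Y687.N

open Pool.Agent.Y687
open Pool.Agent.Z700 (un)

/-- the character sum of the sawtooth function (minus the class number) -/
def HH (n : ℕ) : ℚ := ∑ u ∈ range n, (jacobiSym (u : ℤ) n : ℚ) * saw n u

theorem exists_flip' {n : ℕ} (hn : Odd n) (hs : Squarefree n) {l : ℕ} (hl : l.Prime) (hd : l ∣ n) :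
    ∃ v : ℕ, Nat.Coprime v n ∧ v ≡ 1 [MOD n / l] ∧ jacobiSym (v : ℤ) n = -1 := by
  obtain ⟨m, rfl⟩ := hd
  have hlm : Nat.Coprime l m := Nat.coprime_of_squarefree_mul hs
  have h2 : l ≠ 2 := by
    rintro rfl
    exact absurd hn (by simp)
  have hm0 : m ≠ 0 := by
    rintro rfl
    exact absurd hn (by simp)
  obtain ⟨t, ht, hj⟩ := exists_nonres' hl h2
  obtain ⟨v, hv1, hv2⟩ := Nat.chineseRemainder hlm t 1
  rw [Nat.mul_div_cancel_left _ hl.pos]
  refine ⟨v, ?_, hv2, ?_⟩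
  · refine Nat.Coprime.mul_right ?_ ?_
    · rw [Nat.coprime_iff_gcd_eq_one, hv1.gcd_eq]
      exact ht
    · rw [Nat.coprime_iff_gcd_eq_one, hv2.gcd_eq]
      simp
  · haveI : NeZero l := ⟨hl.ne_zero⟩
    haveI : NeZero m := ⟨hm0⟩
    rw [jacobiSym.mul_right]
    have h3 : jacobiSym (v : ℤ) l = -1 := by
      rw [← hj]
      refine jacobiSym.mod_left' ?_
      have h1 : v % l = t % l := hv1
      exact_mod_cast h1
    have h4 : jacobiSym (v : ℤ) m = 1 := by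
      rw [← jac_one_left m]
      refine jacobiSym.mod_left' ?_
      have h1 : v % m = 1 % m := hv2
      exact_mod_cast h1
    rw [h3, h4]
    rfl

theorem sum_permG {n h : ℕ} (hn : 0 < n) (hc : Nat.Coprime h n) (G : ℤ → ℚ)
    (hG : ∀ x y : ℤ, (n : ℤ) ∣ x - y → G x = G y) :
    ∑ u ∈ range n, G (h * u) = ∑ u ∈ range n, G u := by
  rw [← sum_perm hn hc (fun i : ℕ => G (i : ℤ))]
  refine sum_congr rfl fun u _ => ?_
  refine hG _ _ ?_
  have h1 := Nat.div_add_mod (h * u) n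
  refine ⟨((h * u / n : ℕ) : ℤ), ?_⟩
  have h2 : ((h * u : ℕ) : ℤ) = (n : ℤ) * ((h * u / n : ℕ) : ℤ) + ((h * u % n : ℕ) : ℤ) := by
    exact_mod_cast h1.symm
  push_cast at h2 ⊢
  linarith

theorem jac_congr {n : ℕ} {x y : ℤ} (h : (n : ℤ) ∣ x - y) : jacobiSym x n = jacobiSym y n :=
  jacobiSym.mod_left' (Int.emod_eq_emod_iff_emod_sub_eq_zero.2 (Int.emod_eq_zero_of_dvd h))

theorem jac_sq {n : ℕ} {k : ℕ} (hc : Nat.Coprime k n) :
    (jacobiSym (k : ℤ) n : ℚ) * jacobiSym (k : ℤ) n = 1 := by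
  have h := jacobiSym.sq_one (a := (k : ℤ)) (b := n) (by rw [Int.gcd_natCast_natCast]; exact hc)
  have h2 : (jacobiSym (k : ℤ) n : ℚ) ^ 2 = 1 := by exact_mod_cast h
  rw [← sq]; exact h2

theorem jac_zero {n k : ℕ} (hn : n ≠ 0) (h : ¬ Nat.Coprime k n) : jacobiSym (k : ℤ) n = 0 := by
  haveI : NeZero n := ⟨hn⟩
  rw [jacobiSym.eq_zero_iff_not_coprime, Int.gcd_natCast_natCast]
  exact h

theorem char_saw_nat {n : ℕ} (hn : Odd n) (hs : Squarefree n) (k : ℕ) :
    ∑ u ∈ range n, (jacobiSym (u : ℤ) n : ℚ) * saw n (k * u) = jacobiSym (k : ℤ) n * HH n := by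
  have hn0 : n ≠ 0 := hs.ne_zero
  have hpos : 0 < n := Nat.pos_of_ne_zero hn0
  by_cases hc : Nat.Coprime k n
  · have h1 := sum_permG hpos hc (fun x => (jacobiSym x n : ℚ) * saw n x) (fun x y h => by
      rw [jac_congr h, saw_congr h])
    have h2 : ∀ u ∈ range n, (jacobiSym (u : ℤ) n : ℚ) * saw n (k * u) =
        jacobiSym (k : ℤ) n * ((jacobiSym ((k : ℤ) * u) n : ℚ) * saw n (k * u)) := by
      intro u _
      rw [jacobiSym.mul_left]
      push_cast
      have h3 := jac_sq hc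
      linear_combination (-(jacobiSym (u : ℤ) n : ℚ) * saw n (k * u)) * h3
    rw [sum_congr rfl h2, ← mul_sum, h1]
    rfl
  · rw [jac_zero hn0 hc]
    obtain ⟨l, hl, h1, h2⟩ := Nat.Prime.not_coprime_iff_dvd.1 hc
    obtain ⟨v, hv1, hv2, hv3⟩ := exists_flip' hn hs hl h2
    have h3 := sum_permG hpos hv1 (fun x => (jacobiSym x n : ℚ) * saw n (k * x)) (fun x y h => by
      rw [jac_congr h, saw_congr (m := k * x) (n := k * y) (by rw [← mul_sub]; exact Dvd.dvd.mul_left h _)])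
    have h4 : ∀ u ∈ range n, (jacobiSym ((v : ℤ) * u) n : ℚ) * saw n (k * ((v : ℤ) * u)) =
        -((jacobiSym (u : ℤ) n : ℚ) * saw n (k * u)) := by
      intro u _
      rw [jacobiSym.mul_left, hv3]
      have h5 : saw n (k * ((v : ℤ) * u)) = saw n (k * u) := by
        refine saw_congr ?_
        have h6 : ((n / l : ℕ) : ℤ) ∣ (v : ℤ) - 1 := by
          have := (Nat.modEq_iff_dvd.1 hv2.symm)
          exact_mod_cast this
        obtain ⟨c, hc'⟩ := h6
        obtain ⟨k', hk'⟩ := h1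
        have h7 : (n : ℤ) = l * (n / l : ℕ) := by exact_mod_cast (Nat.mul_div_cancel' h2).symm
        refine ⟨k' * c * u, ?_⟩
        have h8 : (v : ℤ) = 1 + ((n / l : ℕ) : ℤ) * c := by linarith
        rw [h7, h8, hk']
        push_cast
        ring
      rw [h5]
      push_cast
      ring
    rw [sum_congr rfl h4, sum_neg_distrib] at h3
    have h9 : ∑ u ∈ range n, (jacobiSym (u : ℤ) n : ℚ) * saw n (k * u) = 0 := by linarith
    rw [h9]
    simp

theorem char_saw {n : ℕ} (hn : Odd n) (hs : Squarefree n) (k : ℤ) :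
    ∑ u ∈ range n, (jacobiSym (u : ℤ) n : ℚ) * saw n (k * u) = jacobiSym k n * HH n := by
  have hn0 : (n : ℤ) ≠ 0 := by exact_mod_cast hs.ne_zero
  obtain ⟨k', hk'⟩ : ∃ k' : ℕ, (k' : ℤ) = k % n := ⟨(k % n).toNat, Int.toNat_of_nonneg (Int.emod_nonneg _ hn0)⟩
  have hd : (n : ℤ) ∣ k - k' := by
    rw [hk']
    exact Int.dvd_self_sub_emod
  rw [jac_congr hd, ← char_saw_nat hn hs k']
  refine sum_congr rfl fun u _ => ?_
  congr 1
  refine saw_congr ?_
  rw [← sub_mul]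
  exact Dvd.dvd.mul_right hd _

theorem char_ded {n : ℕ} (hn : Odd n) (hs : Squarefree n) (d : ℤ) :
    ∑ u ∈ range n, (jacobiSym (u : ℤ) n : ℚ) * ded (d * u) n = jacobiSym d n * HH n ^ 2 := by
  unfold ded
  simp_rw [mul_sum]
  rw [sum_comm]
  have h1 : ∀ i ∈ range n, ∑ u ∈ range n, (jacobiSym (u : ℤ) n : ℚ) *
      (saw n i * saw n (d * u * i)) = (jacobiSym d n * HH n) * ((jacobiSym (i : ℤ) n : ℚ) * saw n i) := by
    intro i _
    have h2 := char_saw hn hs (d * i)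
    have h3 : ∀ u ∈ range n, (jacobiSym (u : ℤ) n : ℚ) * (saw n i * saw n (d * u * i)) =
        saw n i * ((jacobiSym (u : ℤ) n : ℚ) * saw n (d * i * u)) := by
      intro u _
      rw [show d * (u : ℤ) * i = d * i * u by ring]
      ring
    rw [sum_congr rfl h3, ← mul_sum, h2, jacobiSym.mul_left]
    push_cast
    ring
  rw [sum_congr rfl h1, ← mul_sum]
  unfold HH
  ring

theorem sum_un {n : ℕ} (hn0 : n ≠ 0) (f : ℕ → ℚ) :
    ∑ u ∈ un n, (jacobiSym (u : ℤ) n : ℚ) * f u = ∑ u ∈ range n, (jacobiSym (u : ℤ) n : ℚ) * f u := by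
  unfold un
  rw [sum_filter]
  refine sum_congr rfl fun u _ => ?_
  split_ifs with h
  · rfl
  · rw [jac_zero hn0 h]
    simp

/-- transport to units -/
theorem sum_unQ {n : ℕ} [NeZero n] (g : ℕ → ℚ) :
    ∑ a ∈ un n, g a = ∑ u : (ZMod n)ˣ, g (u : ZMod n).val := by
  refine (Finset.sum_bij (fun (u : (ZMod n)ˣ) _ => (u : ZMod n).val) ?_ ?_ ?_ ?_).symm
  · intro u _
    exact mem_rr.2 ⟨ZMod.val_lt _, ZMod.val_coe_unit_coprime u⟩
  · intro u _ v _ h
    exact Units.ext (ZMod.val_injective n h)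
  · intro a ha
    have ha := mem_rr.1 (show a ∈ rr n from ha)
    refine ⟨ZMod.unitOfCoprime a ha.2, Finset.mem_univ _, ?_⟩
    rw [ZMod.coe_unitOfCoprime, ZMod.val_natCast, Nat.mod_eq_of_lt ha.1]
  · intro u _
    rfl

theorem char_inv {n : ℕ} (hn : Odd n) (hs : Squarefree n) (m : ℤ) :
    ∑ u ∈ un n, (jacobiSym (u : ℤ) n : ℚ) * saw n (m * (((u : ZMod n)⁻¹).val : ℤ)) =
      jacobiSym m n * HH n := by
  haveI : NeZero n := ⟨hs.ne_zero⟩
  rw [sum_unQ (fun u => (jacobiSym (u : ℤ) n : ℚ) * saw n (m * (((u : ZMod n)⁻¹).val : ℤ)))]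
  have h1 : ∀ u : (ZMod n)ˣ, (jacobiSym (((u : ZMod n).val : ℕ) : ℤ) n : ℚ) *
      saw n (m * ((((((u : ZMod n).val : ℕ) : ZMod n))⁻¹).val : ℤ)) =
      (fun w : (ZMod n)ˣ => (jacobiSym (((w : ZMod n).val : ℕ) : ℤ) n : ℚ) *
        saw n (m * (((w : ZMod n).val : ℕ) : ℤ))) u⁻¹ := by
    intro u
    simp only
    rw [ZMod.natCast_zmod_val, ZMod.inv_coe_unit]
    have h2 := chi_inv (q := n) dvd_rfl u
    unfold chi at h2
    rw [h2]
  rw [Finset.sum_congr rfl fun u _ => h1 u]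
  have h5 := Equiv.sum_comp (Equiv.inv (ZMod n)ˣ) (fun w : (ZMod n)ˣ =>
    (jacobiSym (((w : ZMod n).val : ℕ) : ℤ) n : ℚ) * saw n (m * (((w : ZMod n).val : ℕ) : ℤ)))
  simp only [Equiv.inv_apply] at h5
  rw [h5]
  rw [← sum_unQ (fun u => (jacobiSym (u : ℤ) n : ℚ) * saw n (m * (u : ℤ))),
    sum_un hs.ne_zero (fun u => saw n (m * (u : ℤ))), char_saw hn hs]

end Pool.Agent.Y687.N
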