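import Pool.Agent.Y687.N.Defs

/-!
# The counting cocycle of the forms of discriminant one
-/

set_option autoImplicit false

namespace Pool.Agent.Y687.N

open Pool.Agent.Z700 (V3)

noncomputable section

/-- substitution -/
def act (a b c d : ℤ) (q : ℤ × ℤ × ℤ) : ℤ × ℤ × ℤ :=
  (q.1 * a ^ 2 + q.2.1 * a * c + q.2.2 * c ^ 2,
   2 * q.1 * a * b + q.2.1 * (a * d + b * c) + 2 * q.2.2 * c * d,
   q.1 * b ^ 2 + q.2.1 * b * d + q.2.2 * d ^ 2)

theorem ev_act (a b c d : ℤ) (q : ℤ × ℤ × ℤ) (x M : ℤ) :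
    ev (act a b c d q) x M = ev q (a * x + b * M) (c * x + d * M) := by
  unfold ev act
  simp only
  ring

theorem act_inv {a b c d : ℤ} (h : a * d - b * c = 1) (q : ℤ × ℤ × ℤ) :
    act d (-b) (-c) a (act a b c d q) = q := by
  obtain ⟨A, B, C⟩ := q
  unfold act
  simp only [Prod.mk.injEq]
  refine ⟨?_, ?_, ?_⟩
  · linear_combination A * (a * d - b * c + 1) * h
  · linear_combination B * (a * d - b * c + 1) * h
  · linear_combination C * (a * d - b * c + 1) * h

/-- the substitution as an equivalence -/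
def eqv (a b c d : ℤ) (h : a * d - b * c = 1) : (ℤ × ℤ × ℤ) ≃ (ℤ × ℤ × ℤ) where
  toFun := act a b c d
  invFun := act d (-b) (-c) a
  left_inv := act_inv h
  right_inv := by
    intro q
    have h' : d * a - (-b) * (-c) = 1 := by linear_combination h
    have := act_inv h' q
    simpa only [neg_neg] using this

theorem F1_act {a b c d : ℤ} (h : a * d - b * c = 1) (hc : (14 : ℤ) ∣ c) {q : ℤ × ℤ × ℤ}
    (hq : F1 q) : F1 (act a b c d q) := by
  obtain ⟨A, B, C⟩ := q
  obtain ⟨c1, rfl⟩ := hc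
  obtain ⟨h1, ⟨A1, h2⟩, h3⟩ := hq
  simp only at h1 h2 h3
  refine ⟨?_, ?_, ?_⟩
  · unfold act
    simp only
    linear_combination (a * d - b * (14 * c1)) ^ 2 * h1 + 1 * (a * d - b * (14 * c1) + 1) * h
  · unfold act
    simp only
    exact ⟨A1 * a ^ 2 + B * a * c1 + C * c1 ^ 2 * 14, by rw [h2]; ring⟩
  · unfold act
    simp only
    have h4 : 2 * A * a * b + B * (a * d + b * (14 * c1)) + 2 * C * (14 * c1) * d =
        B + 28 * (A1 * a * b + B * b * c1 + C * c1 * d) := by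
      rw [h2]; linear_combination B * h
    rw [h4]
    omega

theorem F1_act_iff {a b c d : ℤ} (h : a * d - b * c = 1) (hc : (14 : ℤ) ∣ c) {q : ℤ × ℤ × ℤ} :
    F1 (act a b c d q) ↔ F1 q := by
  refine ⟨fun hq => ?_, F1_act h hc⟩
  have h' : d * a - (-b) * (-c) = 1 := by linear_combination h
  have h1 := F1_act h' (hc.neg_right) hq
  rwa [act_inv h] at h1

open Classical in
/-- the difference of the signs at two points -/
def T (x M y N : ℤ) (q : ℤ × ℤ × ℤ) : ℤ :=
  if F1 q then (Int.sign (ev q x M) - Int.sign (ev q y N)) else 0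

theorem ev10 (q : ℤ × ℤ × ℤ) : ev q 1 0 = q.1 := by
  unfold ev; ring

theorem G1_eq (x M : ℤ) : G1 x M = ∑ᶠ q, T x M 1 0 q := by
  unfold G1
  refine finsum_congr fun q => ?_
  unfold T
  rw [ev10]

theorem T_act {a b c d : ℤ} (h : a * d - b * c = 1) (hc : (14 : ℤ) ∣ c) (x M y N : ℤ)
    (q : ℤ × ℤ × ℤ) : T (a * x + b * M) (c * x + d * M) (a * y + b * N) (c * y + d * N) q =
      T x M y N (act a b c d q) := by
  unfold T
  by_cases hq : F1 q
  · rw [if_pos hq, if_pos (F1_act h hc hq), ev_act, ev_act]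
  · rw [if_neg hq, if_neg (fun h1 => hq ((F1_act_iff h hc).1 h1))]

theorem T_add (x M y N z L : ℤ) (q : ℤ × ℤ × ℤ) : T x M z L q = T x M y N q + T y N z L q := by
  unfold T
  split_ifs
  · ring
  · ring

/-- no form vanishes at the point -/
def NV (x M : ℤ) : Prop := ∀ q, F1 q → ev q x M ≠ 0

theorem A_ne {q : ℤ × ℤ × ℤ} (hq : F1 q) : q.1 ≠ 0 := by
  intro h0
  obtain ⟨h1, -, h3⟩ := hq
  rw [h0] at h1
  have h4 : (q.2.1 - 1) * (q.2.1 + 1) = 0 := by linear_combination h1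
  rcases mul_eq_zero.1 h4 with h5 | h5 <;> omega

theorem C_ne {q : ℤ × ℤ × ℤ} (hq : F1 q) : q.2.2 ≠ 0 := by
  intro h0
  obtain ⟨h1, -, h3⟩ := hq
  rw [h0] at h1
  have h4 : (q.2.1 - 1) * (q.2.1 + 1) = 0 := by linear_combination h1
  rcases mul_eq_zero.1 h4 with h5 | h5 <;> omega

theorem NV_inf {a b c d : ℤ} (h : a * d - b * c = 1) (hc : (14 : ℤ) ∣ c) : NV a c := by
  intro q hq
  have h1 := A_ne (F1_act h hc hq)
  have h2 : (act a b c d q).1 = ev q a c := by
    unfold act ev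
    ring
  rwa [h2] at h1

theorem NV_zero : NV 0 1 := by
  intro q hq
  have h1 := C_ne hq
  have h2 : ev q 0 1 = q.2.2 := by unfold ev; ring
  rwa [h2]

theorem NV_cop {x M : ℤ} (h : IsCoprime (14 * x) M) : NV x M := by
  intro q hq h0
  obtain ⟨h1, ⟨A1, h2⟩, h3⟩ := hq
  obtain ⟨B1, hB⟩ : ∃ B1, q.2.1 = 28 * B1 + 13 := ⟨q.2.1 / 28, by omega⟩
  have h4 : (2 * q.1 * x + q.2.1 * M - M) * (2 * q.1 * x + q.2.1 * M + M) = 0 := by
    unfold ev at h0
    linear_combination 4 * q.1 * h0 + M ^ 2 * h1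
  rw [h2, hB] at h4
  have nodd : ¬ (2 : ℤ) ∣ M := by
    intro h5
    have h6 : (2 : ℤ) ∣ 14 * x := ⟨7 * x, by ring⟩
    have h7 := h.isUnit_of_dvd' h6 h5
    rw [Int.isUnit_iff] at h7
    omega
  have n7 : ¬ (7 : ℤ) ∣ M := by
    intro h5
    have h6 : (7 : ℤ) ∣ 14 * x := ⟨2 * x, by ring⟩
    have h7 := h.isUnit_of_dvd' h6 h5
    rw [Int.isUnit_iff] at h7
    omega
  rcases mul_eq_zero.1 h4 with h5 | h5
  · have h6 : (7 : ℤ) ∣ 3 * M := ⟨-(A1 * x + B1 * M), by linarith⟩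
    have h7 : IsCoprime (7 : ℤ) 3 := ⟨1, -2, by norm_num⟩
    exact n7 (h7.dvd_of_dvd_mul_left h6)
  · apply nodd
    exact ⟨-(A1 * x + B1 * M), by linarith⟩

theorem key {q : ℤ × ℤ × ℤ} (h : q.2.1 ^ 2 - 4 * q.1 * q.2.2 = 1) (x M : ℤ) :
    4 * (q.1 * ev q x M) = (2 * q.1 * x + q.2.1 * M) ^ 2 - M ^ 2 := by
  unfold ev
  linear_combination -(M ^ 2) * h

theorem T_ne {x M : ℤ} (hNV : NV x M) {q : ℤ × ℤ × ℤ} (h : T x M 1 0 q ≠ 0) :
    F1 q ∧ q.1 * ev q x M < 0 := by
  unfold T at h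
  by_cases hq : F1 q
  · refine ⟨hq, ?_⟩
    rw [if_pos hq, ev10] at h
    have h1 : Int.sign (ev q x M) ≠ Int.sign q.1 := by
      intro h2
      apply h
      rw [h2, sub_self]
    have h2 := A_ne hq
    have h3 := hNV q hq
    rcases lt_or_gt_of_ne h2 with h4 | h4
    · rcases lt_or_gt_of_ne h3 with h5 | h5
      · exact absurd (by rw [Int.sign_eq_neg_one_of_neg h4, Int.sign_eq_neg_one_of_neg h5]) h1
      · exact mul_neg_of_neg_of_pos h4 h5
    · rcases lt_or_gt_of_ne h3 with h5 | h5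
      · exact mul_neg_of_pos_of_neg h4 h5
      · exact absurd (by rw [Int.sign_eq_one_of_pos h4, Int.sign_eq_one_of_pos h5]) h1
  · rw [if_neg hq] at h
    exact absurd rfl h

theorem bound {x M : ℤ} {q : ℤ × ℤ × ℤ} (hd : q.2.1 ^ 2 - 4 * q.1 * q.2.2 = 1)
    (h : q.1 * ev q x M < 0) :
    4 * |q.1| ≤ M ^ 2 ∧ |2 * q.1 * x + q.2.1 * M| < |M| := by
  have h1 := key hd x M
  have h2 : (2 * q.1 * x + q.2.1 * M) ^ 2 < M ^ 2 := by nlinarith
  have h3 := sq_lt_sq.1 h2
  refine ⟨?_, h3⟩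
  have h4 : ev q x M ≠ 0 := by
    intro h5; rw [h5, mul_zero] at h; exact lt_irrefl _ h
  have h5 : 1 ≤ |ev q x M| := Int.one_le_abs h4
  have h6 : |q.1| * |ev q x M| = -(q.1 * ev q x M) := by
    rw [← abs_mul, abs_of_neg h]
  have h7 : |q.1| ≤ |q.1| * |ev q x M| := le_mul_of_one_le_right (abs_nonneg _) h5
  nlinarith [sq_nonneg (2 * q.1 * x + q.2.1 * M)]

theorem fin_T {x M : ℤ} (hNV : NV x M) : (Function.support (T x M 1 0)).Finite := by
  rcases eq_or_ne M 0 with rfl | hM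
  · have : Function.support (T x 0 1 0) = ∅ := by
      rw [Set.eq_empty_iff_forall_notMem]
      intro q hq
      have h1 := T_ne hNV hq
      have h2 := (bound h1.1.1 h1.2).2
      rw [abs_zero] at h2
      exact absurd (abs_nonneg _) (not_le.2 h2)
    rw [this]
    exact Set.finite_empty
  · set K : ℤ := M ^ 2 with hK
    set L : ℤ := |M| + 2 * K * |x| with hL
    set R : ℤ := L ^ 2 + 9 with hR
    refine ((Set.finite_Icc (-K) K).prod ((Set.finite_Icc (-L) L).prod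
      (Set.finite_Icc (-R) R))).subset ?_
    intro q hq
    have h1 := T_ne hNV hq
    obtain ⟨h2, h3⟩ := bound h1.1.1 h1.2
    have hA : |q.1| ≤ K := by
      have := abs_nonneg q.1
      omega
    have hM1 : 1 ≤ |M| := Int.one_le_abs hM
    have hB : |q.2.1| ≤ L := by
      have h4 : |q.2.1 * M| ≤ |2 * q.1 * x + q.2.1 * M| + |2 * q.1 * x| := by
        have h5 : q.2.1 * M = (2 * q.1 * x + q.2.1 * M) - 2 * q.1 * x := by ring
        calc |q.2.1 * M| = |(2 * q.1 * x + q.2.1 * M) - 2 * q.1 * x| := by rw [← h5]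
          _ ≤ _ := abs_sub _ _
      have h6 : |2 * q.1 * x| ≤ 2 * K * |x| := by
        rw [abs_mul, abs_mul]
        have : |(2:ℤ)| = 2 := rfl
        rw [this]
        have := abs_nonneg x
        nlinarith
      have h7 : |q.2.1| ≤ |q.2.1 * M| := by
        rw [abs_mul]
        exact le_mul_of_one_le_right (abs_nonneg _) hM1
      rw [hL]
      linarith
    have hC : |q.2.2| ≤ R := by
      have h4 : 4 * (q.1 * q.2.2) = q.2.1 ^ 2 - 1 := by
        have := h1.1.1
        linarith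
      have h5 : 4 * (|q.1| * |q.2.2|) ≤ q.2.1 ^ 2 + 9 := by
        rw [← abs_mul]
        rcases abs_cases (q.1 * q.2.2) with ⟨h6, _⟩ | ⟨h6, _⟩ <;> rw [h6] <;>
          nlinarith [sq_nonneg q.2.1]
      have h6 : q.2.1 ^ 2 ≤ L ^ 2 := by
        rw [← sq_abs q.2.1]
        exact pow_le_pow_left₀ (abs_nonneg _) hB 2
      have h7 : 1 ≤ |q.1| := Int.one_le_abs (A_ne h1.1)
      have h8 : |q.2.2| ≤ |q.1| * |q.2.2| := le_mul_of_one_le_left (abs_nonneg _) h7
      have h9 := abs_nonneg q.2.2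
      rw [hR]
      linarith
    refine ⟨?_, ?_, ?_⟩
    · exact abs_le.1 hA
    · exact abs_le.1 hB
    · exact abs_le.1 hC

theorem G1_coc {a b c d : ℤ} (h : a * d - b * c = 1) (hc : (14 : ℤ) ∣ c) {x M : ℤ}
    (hNV : NV x M) : G1 (a * x + b * M) (c * x + d * M) = G1 x M + G1 a c := by
  rw [G1_eq, G1_eq, G1_eq]
  have h1 : ∀ q, T (a * x + b * M) (c * x + d * M) 1 0 q =
      T x M 1 0 (eqv a b c d h q) + T a c 1 0 q := by
    intro q
    rw [T_add _ _ a c 1 0 q]
    congr 1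
    have h2 := T_act h hc x M 1 0 q
    simp only [mul_one, mul_zero, add_zero] at h2
    exact h2
  have hf1 : (Function.support fun q => T x M 1 0 (eqv a b c d h q)).Finite := by
    have := (fin_T hNV).preimage ((eqv a b c d h).injective.injOn)
    exact this
  rw [finsum_congr h1, finsum_add_distrib hf1 (fin_T (NV_inf h hc)),
    finsum_comp_equiv (eqv a b c d h) (f := T x M 1 0)]

theorem G1_zero : G1 0 1 = 0 := by
  rw [G1_eq]
  have : ∀ q, T 0 1 1 0 q = 0 := by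
    intro q
    by_contra h
    have h1 := T_ne NV_zero h
    have h2 := (bound h1.1.1 h1.2).2
    have h3 := h1.1.2.2
    rw [mul_zero, zero_add, mul_one, abs_one, abs_lt] at h2
    omega
  rw [finsum_congr this, finsum_zero]

theorem G1_aff {a b c d : ℤ} (h : a * d - b * c = 1) (hc : (14 : ℤ) ∣ c) {x M : ℤ}
    (hNV : NV x M) : G1 (a * x + b * M) (c * x + d * M) = G1 x M + G1 b d := by
  have h1 := G1_coc h hc (x := 0) (M := 1) NV_zero
  simp only [mul_zero, mul_one, zero_add] at h1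
  rw [G1_coc h hc hNV, h1, G1_zero, zero_add]

theorem G1_add (x M m : ℤ) : G1 (x + m * M) M = G1 x M := by
  rw [G1_eq, G1_eq]
  have hdet : (1 : ℤ) * 1 - m * 0 = 1 := by ring
  have h1 : ∀ q, T (x + m * M) M 1 0 q = T x M 1 0 (eqv 1 m 0 1 hdet q) := by
    intro q
    have h2 := T_act hdet (dvd_zero _) x M 1 0 q
    simp only [mul_one, mul_zero, add_zero, one_mul, zero_mul, zero_add] at h2
    exact h2
  rw [finsum_congr h1, finsum_comp_equiv (eqv 1 m 0 1 hdet) (f := T x M 1 0)]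

theorem G1_one (x : ℤ) : G1 x 1 = 0 := by
  have h := G1_add 0 1 x
  rw [zero_add, mul_one] at h
  rw [h, G1_zero]

theorem G1_neg_neg (x M : ℤ) : G1 (-x) (-M) = G1 x M := by
  rw [G1_eq, G1_eq]
  apply finsum_congr
  intro q
  have h : ev q (-x) (-M) = ev q x M := by unfold ev; ring
  unfold T
  rw [h]

/-- the reflection -/
def refl : (ℤ × ℤ × ℤ) ≃ (ℤ × ℤ × ℤ) where
  toFun q := (-q.1, q.2.1, -q.2.2)
  invFun q := (-q.1, q.2.1, -q.2.2)
  left_inv q := by simp
  right_inv q := by simp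

theorem G1_neg (x M : ℤ) : G1 (-x) M = -G1 x M := by
  rw [G1_eq, G1_eq]
  have h1 : ∀ q, T (-x) M 1 0 q = (fun q => -T x M 1 0 q) (refl q) := by
    intro q
    obtain ⟨A, B, C⟩ := q
    have hr : refl (A, B, C) = (-A, B, -C) := rfl
    rw [hr]
    unfold T
    have hF : F1 (-A, B, -C) ↔ F1 (A, B, C) := by
      unfold F1
      simp only
      constructor
      · rintro ⟨h1, h2, h3⟩
        exact ⟨by linear_combination h1, (dvd_neg).1 h2, h3⟩
      · rintro ⟨h1, h2, h3⟩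
        exact ⟨by linear_combination h1, (dvd_neg).2 h2, h3⟩
    have e1 : ev (-A, B, -C) x M = - ev (A, B, C) (-x) M := by
      unfold ev; simp only; ring
    have e2 : ev (-A, B, -C) 1 0 = - ev (A, B, C) 1 0 := by
      unfold ev; simp only; ring
    simp only
    by_cases hq : F1 (A, B, C)
    · rw [if_pos hq, if_pos (hF.2 hq), e1, e2, Int.sign_neg, Int.sign_neg]
      ring
    · rw [if_neg hq, if_neg (fun h => hq (hF.1 h)), neg_zero]
  rw [finsum_congr h1, finsum_comp_equiv refl (f := fun q => -T x M 1 0 q), finsum_neg_distrib]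

end

end Pool.Agent.Y687.N
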