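import Pool.Agent.Z700.Defs
import Pool.Agent.Y687.K2.Eis

/-!
# Twists of `X_0(14)` by `-n`, `n = 3 mod 8`: the indefinite side

`n` is a squarefree natural number `= 3 mod 8`, `χ(u) = (u / n)` (an odd character). The indefinite side counts
binary quadratic forms of discriminant one, i.e. pairs of adjacent Farey fractions `β / a < x / n < δ / a'`,
`a δ - a' β = 1`; with `X = a x - β n > 0`, `Y = δ n - a' x > 0` they are the factorizations `a Y + a' X = n`.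
-/

set_option autoImplicit false

namespace Pool.Agent.Y687.N

open Finset Pool.Agent.Z700

noncomputable section

/-- the factorization data `(T, a, a')`: `a ∣ n - T`, `2 ∣ a`, `a' ∣ T`, `d ∣ a'`;
here `Y = (n - T) / a` and `X = T / a'` -/
def Om (d n : ℕ) : Finset (Σ _ : ℕ, ℕ × ℕ) :=
  (range n).sigma fun T => ((n - T).divisors.filter (2 ∣ ·)) ×ˢ (T.divisors.filter (d ∣ ·))

/-- the condition at the cusp `x / n`: `a x = X`, `a' x = - Y` modulo `n` -/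
def Cd (n : ℕ) (x : ℤ) (w : Σ _ : ℕ, ℕ × ℕ) : Prop :=
  (n : ℤ) ∣ (w.2.1 : ℤ) * x - ((w.1 / w.2.2 : ℕ) : ℤ) ∧
  (n : ℤ) ∣ (w.2.2 : ℤ) * x + (((n - w.1) / w.2.1 : ℕ) : ℤ)

instance (n : ℕ) (x : ℤ) (w : Σ _ : ℕ, ℕ × ℕ) : Decidable (Cd n x w) := by
  unfold Cd; infer_instance

/-- the number of factorizations belonging to the cusp -/
def Nq (d n : ℕ) (x : ℤ) : ℤ := (((Om d n).filter fun w => Cd n x w).card : ℤ)

/-- the crossing number -/
def Fq (d n : ℕ) (x : ℤ) : ℤ := Nq d n (-x) - Nq d n x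

/-- the forms of discriminant one with `14 ∣ A` and `B = 13 mod 28` -/
def F1 (q : ℤ × ℤ × ℤ) : Prop := q.2.1 ^ 2 - 4 * q.1 * q.2.2 = 1 ∧ (14 : ℤ) ∣ q.1 ∧ q.2.1 % 28 = 13

/-- the value of a form -/
def ev (q : ℤ × ℤ × ℤ) (x M : ℤ) : ℤ := q.1 * x ^ 2 + q.2.1 * x * M + q.2.2 * M ^ 2

open Classical in
/-- twice the crossing number of the path from `∞` to `x / M` with the geodesics of the forms `F1` -/
def G1 (x M : ℤ) : ℤ := ∑ᶠ q : ℤ × ℤ × ℤ, if F1 q then Int.sign (ev q x M) - Int.sign q.1 else 0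

/-- FORM: the forms as factorizations -/
def S_FORM : Prop := ∀ (n : ℕ) (x : ℤ), Odd n → IsCoprime (14 * x) (n : ℤ) →
  G1 x n = 2 * Fq 7 n x

/-- LVL2: the crossing number of level two is a Dedekind sum. (`saw n u` is the sawtooth function of
`u / n`, `ded x n` the Dedekind sum, `(n + 1) / 2` the inverse of `2` and `y` the inverse of `x` modulo `n`) -/
def S_LVL2 : Prop := ∀ (n : ℕ) (x y : ℤ), Odd n → (n : ℤ) ∣ x * y - 1 →
  (Fq 1 n x : ℚ) = 12 * ded x n - 12 * ded (2 * x) n + saw n x - saw n (((n + 1) / 2 : ℕ) * y)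

/-- the local weight at `l` -/
def psn (l a a' Y X : ℕ) : ℤ := if l ∣ a ∧ l ∣ X then jacobiSym (-((a' * Y : ℕ) : ℤ)) l
  else jacobiSym ((a * X : ℕ) : ℤ) l

/-- C1B: the character sum over the cusps belonging to a factorization -/
def S_C1B : Prop := ∀ n : ℕ, Odd n → Squarefree n → ∀ a a' X Y : ℕ, a * Y + a' * X = n →
  ∑ u ∈ (un n).filter (fun u : ℕ => (n : ℤ) ∣ (a : ℤ) * (u : ℤ) - (X : ℤ) ∧
    (n : ℤ) ∣ (a' : ℤ) * (u : ℤ) + (Y : ℤ)), jacobiSym u n = ∏ l ∈ n.primeFactors, psn l a a' Y X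

/-- the divisor sum -/
def WN (d n T : ℕ) : ℤ :=
  ∑ a ∈ (n - T).divisors.filter (2 ∣ ·), ∑ a' ∈ T.divisors.filter (d ∣ ·),
    ∏ l ∈ n.primeFactors, psn l a a' ((n - T) / a) (T / a')

/-- the local densities away from `2` -/
def loc1 (n1 D : ℕ) : ℤ :=
  if Odd (D.factorization 2) then ∏ l ∈ D.primeFactors.erase 2, fac n1 D l else 0

/-- C2, level two -/
def S_C21 : Prop := ∀ n : ℕ, Squarefree n → n % 8 = 3 → ∀ T : ℕ, Odd T → T < n →
  WN 1 n T = -loc1 n (4 * (n - T) * T)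

/-- C2, level fourteen -/
def S_C27 : Prop := ∀ n : ℕ, Squarefree n → n % 8 = 3 → ¬ 7 ∣ n → jacobiSym 7 n = 1 → ∀ T : ℕ, Odd T →
  7 ∣ T → T < n → WN 7 n T = -loc n (4 * (n - T) * T)

/-- CARD: the square of the number of vectors of norm `n` -/
def S_CARD : Prop := ∀ n : ℕ, Squarefree n → n % 8 = 3 →
  ((vec n).card : ℤ) ^ 2 = 2 * (vec n).card +
    24 * ∑ b ∈ (Ioo (-(n : ℤ)) n).filter (fun b : ℤ => Odd b), loc1 n ((n : ℤ) ^ 2 - b ^ 2).toNat

end

end Pool.Agent.Y687.N
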