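import Pool.Agent.Y687.K3.FinCls
import Pool.Agent.Y664.Z.Sela
import Pool.Agent.Z700.Defs3

/-!
# The descent for twists by `m * pr P`, `m` an integer of any sign, `P` a set of split primes
-/

set_option autoImplicit false
set_option linter.style.haveILetI false

open Finset

namespace Pool.Agent.Y687.N

open Pool.Agent.Y687
open Pool.Agent.Z700 (pr Yd lres)
open Pool.Agent.Z701 (Sp)
open Pool.Agent.Y664.Z (lin parity prime_not_dvd_pr cast_pr_ne pr_erase pr_erase_sdiff)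

/-- all the roots of `x² + 13 m x + 128 m²` modulo `p` are not squares -/
def RtZ (m : ℤ) (p : ℕ) : Prop :=
  ∀ x : ZMod p, x ^ 2 + 13 * (m : ZMod p) * x + 128 * (m : ZMod p) ^ 2 = 0 → ¬ IsSquare x

open Classical in
/-- the diagonal part -/
noncomputable def xrZ (m : ℤ) (p : ℕ) : ℤ := if RtZ m p then 1 else 0

/-- the residue conditions imply that `J` is empty -/
theorem J_emptyZ {m : ℤ} {P J : Finset ℕ} (hP : ∀ p ∈ P, Sp p) (hodd : Odd (Yd lres (xrZ m) P))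
    (hJ : J ⊆ P) (h1 : ∀ p ∈ P \ J, IsSquare ((pr J : ℕ) : ZMod p))
    (h2 : ∀ p ∈ J, (IsSquare ((pr (P \ J) : ℕ) : ZMod p) ↔ ¬ RtZ m p)) : J = ∅ := by
  classical
  refine lin lres (xrZ m) P J hodd hJ ?_ ?_
  · intro p hp
    rw [Finset.mem_sdiff] at hp
    exact (parity (hP p hp.1).1 (hP p hp.1).2.1 J
      (fun q hq => ⟨(hP q (hJ hq)).1, (hP q (hJ hq)).2.1⟩) hp.2).1
      (h1 p (Finset.mem_sdiff.2 hp))
  · intro p hp
    have h3 := parity (hP p (hJ hp)).1 (hP p (hJ hp)).2.1 (P \ J)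
      (fun q hq => ⟨(hP q (Finset.mem_sdiff.1 hq).1).1, (hP q (Finset.mem_sdiff.1 hq).1).2.1⟩)
      (fun h => (Finset.mem_sdiff.1 h).2 hp)
    have h4 := h2 p hp
    unfold xrZ
    by_cases h5 : RtZ m p
    · rw [if_pos h5, Int.even_add]
      have h6 : ¬ Even (∑ q ∈ P \ J, lres p q) := fun h7 => (h4.1 (h3.2 h7)) h5
      constructor
      · intro h7
        exact absurd h7 h6
      · intro h7
        exact absurd h7 (by decide)
    · rw [if_neg h5, add_zero]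
      exact h3.1 (h4.2 h5)

/-- at a prime dividing `M` but not `d` the number `d` is a square -/
theorem local_unit {A0 B0 M d w e N : ℤ} (hM : Squarefree M) (hc : IsCoprime (d * w) e)
    (h : d * N ^ 2 = d ^ 2 * w ^ 4 + (A0 * M) * d * w ^ 2 * e ^ 2 + (B0 * M ^ 2) * e ^ 4)
    {q : ℕ} (hq : q.Prime) (hqd : ¬ (q : ℤ) ∣ d) (hqM : (q : ℤ) ∣ M) (hB : ¬ (q : ℤ) ∣ B0)
    (hs : IsSquare (B0 : ZMod q)) : IsSquare (d : ZMod q) := by
  haveI : Fact q.Prime := ⟨hq⟩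
  have hqP : Prime (q : ℤ) := Nat.prime_iff_prime_int.1 hq
  have hq0 : (q : ℤ) ≠ 0 := hqP.ne_zero
  obtain ⟨M1, hM1⟩ := hqM
  have nM1 : ¬ (q : ℤ) ∣ M1 := by
    rintro ⟨k, hk⟩
    exact hqP.not_isUnit (hM q ⟨k, by rw [hM1, hk]; ring⟩)
  have hd0 : (d : ZMod q) ≠ 0 := by
    rwa [Ne, ZMod.intCast_zmod_eq_zero_iff_dvd]
  by_cases hw : (q : ℤ) ∣ w
  · obtain ⟨w1, hw1⟩ := hw
    have he : ¬ (q : ℤ) ∣ e := by
      intro he
      have h1 : (q : ℤ) ∣ d * w := by rw [hw1]; exact ⟨d * w1, by ring⟩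
      exact hqP.not_isUnit (hc.isUnit_of_dvd' h1 he)
    have hN : (q : ℤ) ∣ N := by
      have h1 : (q : ℤ) ∣ d * N ^ 2 := by
        rw [h, hw1, hM1]
        exact ⟨d ^ 2 * q ^ 3 * w1 ^ 4 + A0 * q ^ 2 * M1 * d * w1 ^ 2 * e ^ 2 + B0 * q * M1 ^ 2 * e ^ 4,
          by ring⟩
      rcases hqP.dvd_or_dvd h1 with h2 | h2
      · exact absurd h2 hqd
      · exact hqP.dvd_of_dvd_pow h2
    obtain ⟨N1, hN1⟩ := hN
    have h2 : d * N1 ^ 2 = d ^ 2 * q ^ 2 * w1 ^ 4 + A0 * q * M1 * d * w1 ^ 2 * e ^ 2 +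
        B0 * M1 ^ 2 * e ^ 4 := by
      apply mul_left_cancel₀ (pow_ne_zero 2 hq0)
      rw [hN1, hw1, hM1] at h
      linear_combination h
    have h3 := congrArg (fun t : ℤ => (t : ZMod q)) h2
    push_cast at h3
    rw [ZMod.natCast_self] at h3
    obtain ⟨s, hs⟩ := hs
    have hB0 : (B0 : ZMod q) ≠ 0 := by rwa [Ne, ZMod.intCast_zmod_eq_zero_iff_dvd]
    have hM10 : (M1 : ZMod q) ≠ 0 := by rwa [Ne, ZMod.intCast_zmod_eq_zero_iff_dvd]
    have he0 : (e : ZMod q) ≠ 0 := by rwa [Ne, ZMod.intCast_zmod_eq_zero_iff_dvd]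
    have h4 : (d : ZMod q) * (N1 : ZMod q) ^ 2 = (s * M1 * e ^ 2) ^ 2 := by
      linear_combination h3 + (M1 : ZMod q) ^ 2 * e ^ 4 * hs
    have hs0 : s ≠ 0 := by
      rintro rfl
      apply hB0
      rw [hs]; ring
    have hN0 : (N1 : ZMod q) ≠ 0 := by
      intro h0
      rw [h0] at h4
      have h5 : (s * (M1 : ZMod q) * e ^ 2) ^ 2 = 0 := by rw [← h4]; ring
      exact pow_ne_zero 2 (mul_ne_zero (mul_ne_zero hs0 hM10) (pow_ne_zero 2 he0)) h5
    refine ⟨s * M1 * e ^ 2 / N1, ?_⟩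
    rw [div_mul_div_comm, eq_div_iff (mul_ne_zero hN0 hN0)]
    linear_combination h4
  · have hw0 : (w : ZMod q) ≠ 0 := by rwa [Ne, ZMod.intCast_zmod_eq_zero_iff_dvd]
    have h3 := congrArg (fun t : ℤ => (t : ZMod q)) h
    rw [hM1] at h3
    push_cast at h3
    rw [ZMod.natCast_self] at h3
    have h4 : (N : ZMod q) ^ 2 = d * w ^ 4 := by
      apply mul_left_cancel₀ hd0
      linear_combination h3
    refine ⟨N / w ^ 2, ?_⟩
    rw [div_mul_div_comm, eq_div_iff (mul_ne_zero (pow_ne_zero 2 hw0) (pow_ne_zero 2 hw0))]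
    linear_combination -h4

/-- the frame of the descent -/
theorem frameZ {m : ℤ} {P : Finset ℕ} (hP : ∀ p ∈ P, Sp p) (hsqf : Squarefree ((pr P : ℤ) * m))
    (hodd : Odd (Yd lres (xrZ m) P)) {A0 B0 d w e N : ℤ}
    (hB0 : ∀ p ∈ P, ¬ (p : ℤ) ∣ B0 ∧ IsSquare (B0 : ZMod p))
    (hunit : ∀ u : ℤ, Squarefree u → u ∣ B0 → ∀ p ∈ P, IsSquare (u : ZMod p))
    (hd : Squarefree d) (hc : IsCoprime (d * w) e)
    (h : d * N ^ 2 = d ^ 2 * w ^ 4 + (A0 * ((pr P : ℤ) * m)) * d * w ^ 2 * e ^ 2 +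
      (B0 * ((pr P : ℤ) * m) ^ 2) * e ^ 4)
    (hm : ∀ q : ℕ, q.Prime → (q : ℤ) ∣ d → ¬ (q : ℤ) ∣ m)
    (hR : ∀ p ∈ P, ∀ x : ZMod p, x ^ 2 + A0 * (m : ZMod p) * x + B0 * (m : ZMod p) ^ 2 = 0 →
      (IsSquare x ↔ ¬ RtZ m p)) : ∀ p ∈ P, ¬ (p : ℤ) ∣ d := by
  classical
  have hdvd := div_dvd hc h
  have hprP : ∀ q ∈ P, q.Prime := fun q hq => (hP q hq).1
  set J := P.filter (fun p : ℕ => (p : ℤ) ∣ d) with hJdef
  have hJP : J ⊆ P := Finset.filter_subset _ _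
  have hJm : ∀ p, p ∈ J ↔ p ∈ P ∧ (p : ℤ) ∣ d := fun p => Finset.mem_filter
  have hprJ : ∀ q ∈ J, q.Prime := fun q hq => hprP q (hJP hq)
  have hdvd2 : ((pr J : ℕ) : ℤ) ∣ d := by
    rw [Int.natCast_dvd]
    unfold pr
    refine Finset.prod_primes_dvd _ (fun q hq => (hprJ q hq).prime) fun q hq => ?_
    exact Int.natCast_dvd.1 ((hJm q).1 hq).2
  obtain ⟨u, hu⟩ := hdvd2
  have hud : u ∣ d := Dvd.intro_left _ hu.symm
  have huq : ∀ q : ℕ, q.Prime → (q : ℤ) ∣ u → ¬ q ∈ P := by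
    intro q hq hqu hqP
    have hqJ : q ∈ J := (hJm q).2 ⟨hqP, hqu.trans hud⟩
    obtain ⟨k, hk⟩ := hqu
    have h2 : d = q * q * (((pr (J.erase q) : ℕ) : ℤ) * k) := by
      rw [hu, pr_erase hqJ, hk]
      push_cast
      ring
    exact (Nat.prime_iff_prime_int.1 hq).not_isUnit (hd q ⟨_, h2⟩)
  have husf : Squarefree u := hd.squarefree_of_dvd hud
  have hprdvd : ∀ q : ℕ, q.Prime → (q : ℤ) ∣ (pr P : ℤ) * m → q ∈ P ∨ (q : ℤ) ∣ m := by
    intro q hq hqM
    rcases (Nat.prime_iff_prime_int.1 hq).dvd_or_dvd hqM with h1 | h1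
    · left
      by_contra hn
      exact prime_not_dvd_pr hq hprP hn (by exact_mod_cast h1)
    · exact Or.inr h1
  have huB : u ∣ B0 := by
    refine dvd_of_no_common (M := (pr P : ℤ) * m) (hud.trans hdvd) fun q hq hqu hqM => ?_
    rcases hprdvd q hq hqM with h1 | h1
    · exact huq q hq hqu h1
    · exact hm q hq (hqu.trans hud) h1
  have husq := hunit u husf huB
  have hu0 : ∀ p ∈ P, (u : ZMod p) ≠ 0 := by
    intro p hp h0
    have h1 := (ZMod.intCast_zmod_eq_zero_iff_dvd u p).1 h0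
    exact huq p (hprP p hp) h1 hp
  have hJ : J = ∅ := by
    refine J_emptyZ hP hodd hJP ?_ ?_
    · intro p hp
      rw [Finset.mem_sdiff] at hp
      haveI : Fact p.Prime := ⟨hprP p hp.1⟩
      have hpd : ¬ (p : ℤ) ∣ d := fun h0 => hp.2 ((hJm p).2 ⟨hp.1, h0⟩)
      have hpM : (p : ℤ) ∣ (pr P : ℤ) * m := by
        rw [pr_erase hp.1]
        push_cast
        exact ⟨((pr (P.erase p) : ℕ) : ℤ) * m, by ring⟩
      obtain ⟨r, hr⟩ := local_unit hsqf hc h (hprP p hp.1) hpd hpM (hB0 p hp.1).1 (hB0 p hp.1).2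
      obtain ⟨s, hs⟩ := husq p hp.1
      have hs0 : s ≠ 0 := by
        rintro rfl
        apply hu0 p hp.1
        rw [hs]
        ring
      refine ⟨r / s, ?_⟩
      rw [div_mul_div_comm, eq_div_iff (mul_ne_zero hs0 hs0), ← hs, ← hr, hu]
      push_cast
      ring
    · intro p hp
      obtain ⟨hpP, hpd⟩ := (hJm p).1 hp
      haveI : Fact p.Prime := ⟨hprP p hpP⟩
      have hp0 : (p : ℤ) ≠ 0 := by
        have := (hprP p hpP).ne_zero
        exact_mod_cast this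
      have eP : (pr P : ℤ) * m = p * (((pr (P.erase p) : ℕ) : ℤ) * m) := by
        rw [pr_erase hpP]
        push_cast
        ring
      have hpM : (p : ℤ) ∣ (pr P : ℤ) * m := ⟨_, eP⟩
      obtain ⟨d1, M1, hdd, hMM, k1, k2, k3⟩ := local_root hd hsqf hc h (hprP p hpP) hpd hpM
      have hM1 : M1 = ((pr (P.erase p) : ℕ) : ℤ) * m := by
        apply mul_left_cancel₀ hp0
        rw [← hMM, eP]
      have hd1 : d1 = ((pr (J.erase p) : ℕ) : ℤ) * u := by
        apply mul_left_cancel₀ hp0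
        rw [← hdd, hu, pr_erase hp]
        push_cast
        ring
      have hQ0 : ((pr (P.erase p) : ℕ) : ZMod p) ≠ 0 := cast_pr_ne (hprP p hpP)
        (fun q hq => hprP q (Finset.mem_of_mem_erase hq)) (Finset.notMem_erase p P)
      have hJ0 : ((pr (J.erase p) : ℕ) : ZMod p) ≠ 0 := cast_pr_ne (hprP p hpP)
        (fun q hq => hprJ q (Finset.mem_of_mem_erase hq)) (Finset.notMem_erase p J)
      have hK0 : ((pr (P \ J) : ℕ) : ZMod p) ≠ 0 := cast_pr_ne (hprP p hpP)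
        (fun q hq => hprP q (Finset.mem_sdiff.1 hq).1) (fun h0 => (Finset.mem_sdiff.1 h0).2 hp)
      have hm0 : (m : ZMod p) ≠ 0 := by
        intro h0
        apply k1
        rw [hM1]
        push_cast
        rw [h0, mul_zero]
      have hB0' : (B0 : ZMod p) ≠ 0 := by
        rw [Ne, ZMod.intCast_zmod_eq_zero_iff_dvd]
        exact (hB0 p hpP).1
      have hw0 : (w : ZMod p) ≠ 0 := by
        intro hw0
        push_cast at k3
        rw [hw0] at k3
        have h6 : (B0 : ZMod p) * ((M1 : ZMod p) * (e : ZMod p) ^ 2) ^ 2 = 0 := by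
          linear_combination k3
        exact mul_ne_zero hB0' (pow_ne_zero 2 (mul_ne_zero k1 (pow_ne_zero 2 k2))) h6
      have h5 := hR p hpP (((d1 : ZMod p) * (w : ZMod p) ^ 2) /
        (((pr (P.erase p) : ℕ) : ZMod p) * (e : ZMod p) ^ 2)) (by
          rw [hM1] at k3
          push_cast at k3
          field_simp
          linear_combination k3)
      rw [← h5]
      obtain ⟨s, hs⟩ := husq p hpP
      have hs0 : s ≠ 0 := by
        rintro rfl
        apply hu0 p hpP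
        rw [hs]
        ring
      have eQ : ((pr (P.erase p) : ℕ) : ZMod p) = ((pr (J.erase p) : ℕ) : ZMod p) *
          ((pr (P \ J) : ℕ) : ZMod p) := by
        rw [pr_erase_sdiff hJP hp]
        push_cast
        ring
      have e1 : ((d1 : ZMod p) * (w : ZMod p) ^ 2) /
          (((pr (P.erase p) : ℕ) : ZMod p) * (e : ZMod p) ^ 2) =
          (s * w / (((pr (P \ J) : ℕ) : ZMod p) * e)) ^ 2 * ((pr (P \ J) : ℕ) : ZMod p) := by
        rw [hd1, eQ]
        push_cast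
        rw [hs]
        field_simp
      have ht0 : (s * w / (((pr (P \ J) : ℕ) : ZMod p) * e)) ≠ 0 :=
        div_ne_zero (mul_ne_zero hs0 hw0) (mul_ne_zero hK0 k2)
      rw [e1]
      obtain ⟨t, ht⟩ : ∃ t, t = s * w / (((pr (P \ J) : ℕ) : ZMod p) * e) := ⟨_, rfl⟩
      rw [← ht] at ht0 ⊢
      constructor
      · rintro ⟨r, hr⟩
        exact ⟨t * r, by rw [hr]; ring⟩
      · rintro ⟨r, hr⟩
        refine ⟨r / t, ?_⟩
        rw [div_mul_div_comm, eq_div_iff (mul_ne_zero ht0 ht0), ← hr]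
        ring
  intro p hp hpd
  have : p ∈ J := (hJm p).2 ⟨hp, hpd⟩
  rw [hJ] at this
  exact absurd this (Finset.notMem_empty p)

end Pool.Agent.Y687.N
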