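import Pool.Agent.Y687.N.Desc
import Pool.Agent.Y687.K4.MainT

/-!
# The descent for twists by `m * pr P`, II
-/

set_option autoImplicit false
set_option linter.style.haveILetI false

open Finset

namespace Pool.Agent.Y687.N

open Pool.Agent.Y687
open Pool.Agent.Z700 (pr Yd lres)
open Pool.Agent.Z701 (Sp)
open Pool.Agent.Y664.Z (lin parity prime_not_dvd_pr cast_pr_ne pr_erase pr_erase_sdiff)

/-- the hypotheses of the descent -/
structure HypK (m : ℤ) (P : Finset ℕ) : Prop where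
  m4 : m % 4 = 1
  sp : ∀ p ∈ P, Sp p
  sqf : Squarefree ((pr P : ℤ) * m)
  two : ∀ q : ℕ, q.Prime → (q : ℤ) ∣ m → q ≠ 2 ∧ q ≠ 7 ∧ ¬ IsSquare (-7 : ZMod q) ∧
    ¬ IsSquare (2 : ZMod q)
  odd : Odd (Yd lres (xrZ m) P)

/-- the basic square roots modulo a split prime -/
theorem sp_sq {p : ℕ} (h : Sp p) : (2 : ZMod p) ≠ 0 ∧ (7 : ZMod p) ≠ 0 ∧ IsSquare (2 : ZMod p) ∧
    IsSquare (-1 : ZMod p) ∧ IsSquare (-7 : ZMod p) := by
  haveI : Fact p.Prime := ⟨h.1⟩
  have p2 : p ≠ 2 := by have := h.2.1; rintro rfl; omega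
  have p7 : p ≠ 7 := by have := h.2.2; rintro rfl; omega
  refine ⟨?_, ?_, ?_, ?_, ?_⟩
  · exact_mod_cast prime_cast_ne h.1 2 Nat.prime_two p2
  · exact_mod_cast prime_cast_ne h.1 7 (by norm_num) p7
  · exact (ZMod.exists_sq_eq_two_iff p2).2 (Or.inl h.2.1)
  · exact (ZMod.exists_sq_eq_neg_one_iff (p := p)).2 (by have := h.2.1; omega)
  · exact (sq_seven p (by have := h.2.1; omega) p7).2 h.2.2

theorem root1 {m : ℤ} {p : ℕ} (h : Sp p) (hm : (m : ZMod p) ≠ 0) (x : ZMod p)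
    (hx : x ^ 2 + 13 * (m : ZMod p) * x + 128 * (m : ZMod p) ^ 2 = 0) :
    IsSquare x ↔ ¬ RtZ m p := by
  haveI : Fact p.Prime := ⟨h.1⟩
  obtain ⟨n2, n7, ⟨s2, hs2⟩, -, -⟩ := sp_sq h
  constructor
  · intro hs hR
    exact hR x hx hs
  · intro hR
    by_contra hns
    apply hR
    intro y hy hys
    have h1 : (y - x) * (y + x + 13 * m) = 0 := by linear_combination hy - hx
    rcases mul_eq_zero.1 h1 with h2 | h2
    · exact hns ((sub_eq_zero.1 h2) ▸ hys)
    · have h3 : y * x = 128 * (m : ZMod p) ^ 2 := by linear_combination x * h2 - hx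
      obtain ⟨t, ht⟩ := hys
      have h128 : (128 : ZMod p) * (m : ZMod p) ^ 2 ≠ 0 := by
        rw [show (128 : ZMod p) = 2 ^ 7 by norm_num]
        exact mul_ne_zero (pow_ne_zero _ n2) (pow_ne_zero _ hm)
      have ht0 : t ≠ 0 := by
        rintro rfl
        apply h128
        rw [← h3, ht]
        ring
      apply hns
      refine ⟨8 * m * s2 / t, ?_⟩
      rw [div_mul_div_comm, eq_div_iff (mul_ne_zero ht0 ht0), ← ht]
      linear_combination h3 + 64 * (m : ZMod p) ^ 2 * hs2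

theorem root2 {m : ℤ} {p : ℕ} (h : Sp p) (hm : (m : ZMod p) ≠ 0) (x : ZMod p)
    (hx : x ^ 2 + (-26) * (m : ZMod p) * x + (-343) * (m : ZMod p) ^ 2 = 0) :
    IsSquare x ↔ ¬ RtZ m p := by
  haveI : Fact p.Prime := ⟨h.1⟩
  obtain ⟨n2, n7, ⟨s2, hs2⟩, ⟨i, hi⟩, ⟨δ, hδ⟩⟩ := sp_sq h
  have n4 : (4 : ZMod p) ≠ 0 := by
    rw [show (4 : ZMod p) = 2 * 2 by norm_num]; exact mul_ne_zero n2 n2
  have hx0 : x ≠ 0 := by
    rintro rfl
    have h1 : (7 : ZMod p) ^ 3 * (m : ZMod p) ^ 2 = 0 := by linear_combination -hx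
    exact mul_ne_zero (pow_ne_zero 3 n7) (pow_ne_zero 2 hm) h1
  constructor
  · rintro ⟨y, hy⟩ hR
    have hy0 : y ≠ 0 := by
      rintro rfl
      apply hx0
      rw [hy]; ring
    have hx' : (y ^ 2) ^ 2 - 26 * (m : ZMod p) * y ^ 2 - 343 * (m : ZMod p) ^ 2 = 0 := by
      rw [hy] at hx
      linear_combination hx
    set ρ : ZMod p := (m : ZMod p) * (-13 + 7 * δ) / 2 with hρ
    have hρ2 : 2 * ρ = (m : ZMod p) * (-13 + 7 * δ) := by rw [hρ]; field_simp
    have hroot : ρ ^ 2 + 13 * (m : ZMod p) * ρ + 128 * (m : ZMod p) ^ 2 = 0 := by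
      apply mul_left_cancel₀ n4
      linear_combination (2 * ρ + (m : ZMod p) * (-13 + 7 * δ) + 26 * (m : ZMod p)) * hρ2
        - 49 * (m : ZMod p) ^ 2 * hδ
    apply hR ρ hroot
    refine ⟨i * (ρ + (13 * (m : ZMod p) - y ^ 2) / 2) / y, ?_⟩
    have e1 : 2 * ((13 * (m : ZMod p) - y ^ 2) / 2) = 13 * (m : ZMod p) - y ^ 2 := by field_simp
    set t : ZMod p := (13 * (m : ZMod p) - y ^ 2) / 2 with ht
    have e2 : -(y ^ 2) * ρ = (ρ + t) ^ 2 := by
      apply mul_left_cancel₀ n4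
      linear_combination (-(4 * ρ + 2 * t + 13 * (m : ZMod p) - y ^ 2)) * e1 - 4 * hroot - hx'
    rw [div_mul_div_comm, eq_div_iff (mul_ne_zero hy0 hy0)]
    linear_combination (-1 : ZMod p) * e2 + ((ρ + t) ^ 2) * hi
  · intro hR
    unfold RtZ at hR
    push Not at hR
    obtain ⟨al, hal, b, hb⟩ := hR
    have hal0 : al ≠ 0 := by
      intro h0
      rw [h0] at hal
      have h128 : (2 : ZMod p) ^ 7 * (m : ZMod p) ^ 2 = 0 := by linear_combination hal
      exact mul_ne_zero (pow_ne_zero 7 n2) (pow_ne_zero 2 hm) h128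
    have hb0 : b ≠ 0 := by
      rintro rfl
      apply hal0
      rw [hb]; ring
    obtain ⟨s, hsdef⟩ : ∃ s : ZMod p, s = 8 * m * s2 := ⟨_, rfl⟩
    have hs : s ^ 2 = 128 * (m : ZMod p) ^ 2 := by
      rw [hsdef]; linear_combination -64 * (m : ZMod p) ^ 2 * hs2
    have hrr : (x - 13 * m - 2 * s) * (x - 13 * m + 2 * s) = 0 := by
      linear_combination hx - 4 * hs
    rcases mul_eq_zero.1 hrr with h6 | h6
    · refine ⟨i * (al - s) / b, ?_⟩
      rw [div_mul_div_comm, eq_div_iff (mul_ne_zero hb0 hb0)]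
      linear_combination al * h6 + hal + hs + (al - s) ^ 2 * hi - x * hb
    · refine ⟨i * (al + s) / b, ?_⟩
      rw [div_mul_div_comm, eq_div_iff (mul_ne_zero hb0 hb0)]
      linear_combination al * h6 + hal + hs + (al + s) ^ 2 * hi - x * hb

variable {m : ℤ} {P : Finset ℕ}

theorem HypK.m0 (H : HypK m P) {p : ℕ} (hp : p ∈ P) : (m : ZMod p) ≠ 0 := by
  intro h0
  have h1 := (ZMod.intCast_zmod_eq_zero_iff_dvd m p).1 h0
  have h2 := (H.two p (H.sp p hp).1 h1).2.2.2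
  exact h2 (sp_sq (H.sp p hp)).2.2.1

theorem HypK.case (H : HypK m P) {q : ℕ} (hq : q.Prime) (h : (q : ℤ) ∣ (pr P : ℤ) * m) :
    q ∈ P ∨ (q : ℤ) ∣ m := by
  rcases (Nat.prime_iff_prime_int.1 hq).dvd_or_dvd h with h1 | h1
  · left
    by_contra hn
    exact prime_not_dvd_pr hq (fun r hr => (H.sp r hr).1) hn (by exact_mod_cast h1)
  · exact Or.inr h1

theorem HypK.cls1 (H : HypK m P) : Cls1 ((pr P : ℤ) * m) := by
  intro d w e N hd he hc h
  have hM0 : (pr P : ℤ) * m ≠ 0 := H.sqf.ne_zero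
  have hpos := cls1_pos hM0 hd he h
  have hdvd := div_dvd hc h
  have h1 : ∀ q : ℕ, q.Prime → (q : ℤ) ∣ d → ¬ (q : ℤ) ∣ m := by
    intro q hq hqd hqm
    obtain ⟨n2, n7, hs7, hs2⟩ := H.two q hq hqm
    exact hs7 (cls1_prime H.sqf hd hc h hq hqd (hqm.mul_left _) n7)
  have h2 : ∀ p ∈ P, ¬ (p : ℤ) ∣ d := by
    refine frameZ (A0 := 13) (B0 := 128) H.sp H.sqf H.odd ?_ ?_ hd hc h h1 ?_
    · intro p hp
      obtain ⟨n2, n7, ⟨s2, hs2⟩, -, -⟩ := sp_sq (H.sp p hp)
      haveI : Fact p.Prime := ⟨(H.sp p hp).1⟩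
      constructor
      · rw [← ZMod.intCast_zmod_eq_zero_iff_dvd]
        push_cast
        rw [show (128 : ZMod p) = 2 ^ 7 by norm_num]
        exact pow_ne_zero _ n2
      · exact ⟨8 * s2, by push_cast; linear_combination 64 * hs2⟩
    · intro u hu hdv p hp
      obtain ⟨n2, n7, ⟨s2, hs2⟩, ⟨i, hi⟩, -⟩ := sp_sq (H.sp p hp)
      have h4 := sf_pow 2 7 Nat.prime_two hu (by norm_num; exact hdv)
      have h5 : u = 1 ∨ u = -1 ∨ u = 2 ∨ u = -2 := by omega
      rcases h5 with rfl | rfl | rfl | rfl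
      · exact ⟨1, by push_cast; ring⟩
      · exact ⟨i, by push_cast; exact hi⟩
      · exact ⟨s2, by push_cast; exact hs2⟩
      · exact ⟨i * s2, by push_cast; linear_combination 2 * hi + (i * i) * hs2⟩
    · intro p hp x hx
      exact root1 (H.sp p hp) (H.m0 hp) x (by push_cast at hx; exact hx)
  refine unit1 hpos hd ?_
  refine dvd_of_no_common (M := (pr P : ℤ) * m) hdvd fun q hq hqd hqM => ?_
  rcases H.case hq hqM with hqP | hqm
  · exact h2 q hqP hqd
  · exact h1 q hq hqd hqm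

theorem HypK.cls2 (H : HypK m P) : Cls2 ((pr P : ℤ) * m) := by
  intro d w e N hd hc h
  have hdvd := div_dvd hc h
  have h1 : ∀ q : ℕ, q.Prime → (q : ℤ) ∣ d → ¬ (q : ℤ) ∣ m := by
    intro q hq hqd hqm
    obtain ⟨n2, n7, hs7, hs2⟩ := H.two q hq hqm
    exact hs2 (cls2_prime H.sqf hd hc h hq hqd (hqm.mul_left _) n2)
  have h2 : ∀ p ∈ P, ¬ (p : ℤ) ∣ d := by
    refine frameZ (A0 := -26) (B0 := -343) H.sp H.sqf H.odd ?_ ?_ hd hc h h1 ?_
    · intro p hp
      obtain ⟨n2, n7, -, -, ⟨δ, hδ⟩⟩ := sp_sq (H.sp p hp)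
      haveI : Fact p.Prime := ⟨(H.sp p hp).1⟩
      constructor
      · rw [← ZMod.intCast_zmod_eq_zero_iff_dvd]
        push_cast
        rw [show (-343 : ZMod p) = -(7 ^ 3) by norm_num]
        exact neg_ne_zero.2 (pow_ne_zero _ n7)
      · exact ⟨7 * δ, by push_cast; linear_combination 49 * hδ⟩
    · intro u hu hdv p hp
      obtain ⟨n2, n7, -, ⟨i, hi⟩, ⟨δ, hδ⟩⟩ := sp_sq (H.sp p hp)
      rcases unit2 hu hdv with rfl | rfl | rfl | rfl
      · exact ⟨1, by push_cast; ring⟩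
      · exact ⟨i, by push_cast; exact hi⟩
      · exact ⟨i * δ, by push_cast; linear_combination (-7 : ZMod p) * hi + (i * i) * hδ⟩
      · exact ⟨δ, by push_cast; exact hδ⟩
    · intro p hp x hx
      exact root2 (H.sp p hp) (H.m0 hp) x (by push_cast at hx; exact hx)
  have h5 := unit2 hd (by
    refine dvd_of_no_common (M := (pr P : ℤ) * m) hdvd fun q hq hqd hqM => ?_
    rcases H.case hq hqM with hqP | hqm
    · exact h2 q hqP hqd
    · exact h1 q hq hqd hqm)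
  have hP4 : ∀ Q : Finset ℕ, (∀ p ∈ Q, p % 8 = 1) → (pr Q : ℤ) % 4 = 1 := by
    intro Q
    induction Q using Finset.induction_on with
    | empty => intro _; simp [pr]
    | insert a Q ha ih =>
      intro hQ
      have e : pr (insert a Q) = a * pr Q := by unfold pr; rw [Finset.prod_insert ha]
      rw [e]
      push_cast
      have h6 := hQ a (Finset.mem_insert_self _ _)
      have h7 := ih fun p hp => hQ p (Finset.mem_insert_of_mem hp)
      have h8 : (a : ℤ) % 4 = 1 := by omega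
      rw [Int.mul_emod, h8, h7]
      norm_num
  have hM4 : ((pr P : ℤ) * m) % 4 = 1 := by
    rw [Int.mul_emod, H.m4, hP4 P fun p hp => (H.sp p hp).2.1]
    norm_num
  rcases h5 with rfl | rfl | rfl | rfl
  · exact Or.inl rfl
  · exfalso
    refine not_neg_one hM4 (hc.of_mul_left_right) (N := N) ?_
    linear_combination h
  · exfalso
    refine not_seven hM4 (hc.of_mul_left_right) (N := N) ?_
    apply mul_left_cancel₀ (show (7 : ℤ) ≠ 0 by norm_num)
    linear_combination h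
  · exact Or.inr rfl

/-- finitely many rational points -/
theorem HypK.finite_set (H : HypK m P) : {q : ℚ × ℚ | q.2 ^ 2 = q.1 ^ 3 +
    ((5805 * ((pr P : ℤ) * m) ^ 2 : ℤ) : ℚ) * q.1 +
      ((-285714 * ((pr P : ℤ) * m) ^ 3 : ℤ) : ℚ)}.Finite :=
  finite_set_of_cls H.sqf.ne_zero H.cls1 H.cls2

end Pool.Agent.Y687.N
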