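import Pool.Agent.Y687.N.SymM

/-!
# The explicit formula for the minus symbol of `X_0(14)`
-/

set_option autoImplicit false

open Finset

namespace Pool.Agent.Y687.N

open Pool.Agent.Y687

/-- the Eisenstein part -/
def EM (x M : ℤ) : ℚ :=
  (1 / 24) * (5 * psi x M - 13 * psi (2 * x) M + 13 * psi (7 * x) M - 5 * psi (14 * x) M)

theorem EM_aff {A B D : ℤ} {c : ℕ} (hdet : A * D - B * (14 * c) = 1) (hc : 0 < c) {a M : ℤ}
    (hcop : IsCoprime (14 * a) M) (hM : M ≠ 0) (hK : 14 * c * a + D * M ≠ 0) :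
    EM (A * a + B * M) (14 * c * a + D * M) = EM a M + EM B D := by
  have hD : D ≠ 0 := by
    rintro rfl
    have : (14 : ℤ) ∣ 1 := ⟨-(B * c), by linarith⟩
    norm_num at this
  obtain ⟨H, hH⟩ : ∃ H, H = A * a + B * M := ⟨_, rfl⟩
  obtain ⟨K, hKe⟩ : ∃ K, K = 14 * c * a + D * M := ⟨_, rfl⟩
  rw [← hKe] at hK
  rw [← hH, ← hKe]
  have c1 : IsCoprime a M := hcop.of_mul_left_right
  have c2 : IsCoprime (2 * a) M := IsCoprime.mul_left
    (IsCoprime.of_mul_left_left (x := (2 : ℤ)) (y := 7) (by norm_num; exact hcop.of_mul_left_left)) c1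
  have c7 : IsCoprime (7 * a) M := IsCoprime.mul_left
    (IsCoprime.of_mul_left_right (x := (2 : ℤ)) (y := 7) (by norm_num; exact hcop.of_mul_left_left)) c1
  obtain ⟨κ1, i1, -⟩ := three (14 * c) (by omega) A B D (by push_cast; linarith)
  obtain ⟨κ2, i2, -⟩ := three (7 * c) (by omega) A (2 * B) D (by push_cast; linarith)
  obtain ⟨κ7, i7, -⟩ := three (2 * c) (by omega) A (7 * B) D (by push_cast; linarith)
  obtain ⟨κ14, i14, -⟩ := three c hc A (14 * B) D (by push_cast; linarith)
  have e1 : ((14 * c : ℕ) : ℤ) * a + D * M = K := by rw [hKe]; push_cast; ring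
  have e2 : ((7 * c : ℕ) : ℤ) * (2 * a) + D * M = K := by rw [hKe]; push_cast; ring
  have e7 : ((2 * c : ℕ) : ℤ) * (7 * a) + D * M = K := by rw [hKe]; push_cast; ring
  have e14 : ((c : ℕ) : ℤ) * (14 * a) + D * M = K := by rw [hKe]; ring
  have f1 : A * a + B * M = H := hH.symm
  have f2 : A * (2 * a) + (2 * B) * M = 2 * H := by rw [hH]; ring
  have f7 : A * (7 * a) + (7 * B) * M = 7 * H := by rw [hH]; ring
  have f14 : A * (14 * a) + (14 * B) * M = 14 * H := by rw [hH]; ring
  have g1 := i1 a M c1 hM (by rw [e1]; exact hK)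
  have g2 := i2 (2 * a) M c2 hM (by rw [e2]; exact hK)
  have g7 := i7 (7 * a) M c7 hM (by rw [e7]; exact hK)
  have g14 := i14 (14 * a) M hcop hM (by rw [e14]; exact hK)
  rw [e1, f1] at g1
  rw [e2, f2] at g2
  rw [e7, f7] at g7
  rw [e14, f14] at g14
  have z : IsCoprime (0 : ℤ) 1 := isCoprime_zero_left.2 isUnit_one
  have h1 := i1 0 1 z one_ne_zero (by simpa using hD)
  have h2 := i2 0 1 z one_ne_zero (by simpa using hD)
  have h7 := i7 0 1 z one_ne_zero (by simpa using hD)
  have h14 := i14 0 1 z one_ne_zero (by simpa using hD)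
  simp only [mul_zero, zero_add, mul_one, psi_zero, one_mul] at h1 h2 h7 h14
  unfold EM
  push_cast at *
  linear_combination (1 / 24 : ℚ) * (5 * g1 - 13 * g2 + 13 * g7 - 5 * g14) -
    (1 / 24 : ℚ) * (5 * h1 - 13 * h2 + 13 * h7 - 5 * h14)

theorem EM_neg_neg {a M : ℤ} (hM : M ≠ 0) : EM (-a) (-M) = EM a M := by
  unfold EM
  rw [show 2 * -a = -(2 * a) by ring, show 7 * -a = -(7 * a) by ring,
    show 14 * -a = -(14 * a) by ring, psi_neg_neg hM, psi_neg_neg hM, psi_neg_neg hM,
    psi_neg_neg hM]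

theorem EM_neg {a M : ℤ} (hM : M ≠ 0) : EM (-a) M = -EM a M := by
  unfold EM
  rw [show 2 * -a = -(2 * a) by ring, show 7 * -a = -(7 * a) by ring,
    show 14 * -a = -(14 * a) by ring, psi_neg hM, psi_neg hM, psi_neg hM, psi_neg hM]
  ring

theorem EM_add (a M m : ℤ) : EM (a + m * M) M = EM a M := by
  unfold EM
  rw [show 2 * (a + m * M) = 2 * a + (2 * m) * M by ring,
    show 7 * (a + m * M) = 7 * a + (7 * m) * M by ring,
    show 14 * (a + m * M) = 14 * a + (14 * m) * M by ring, psi_add, psi_add, psi_add, psi_add]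

theorem EM_one (a : ℤ) : EM a 1 = 0 := by
  unfold EM
  rw [psi_one, psi_one, psi_one, psi_one]
  ring

theorem EM13 : EM 1 3 = 1 := by
  have : Int.sign 3 = 1 := rfl
  norm_num [EM, psi, ded, saw, Finset.sum_range_succ, this]
theorem EM15 : EM 1 5 = 1 := by
  have : Int.sign 5 = 1 := rfl
  norm_num [EM, psi, ded, saw, Finset.sum_range_succ, this]
theorem EM613 : EM 6 13 = 6 := by
  have : Int.sign 13 = 1 := rfl
  norm_num [EM, psi, ded, saw, Finset.sum_range_succ, this]

section

variable {s : ℚ → ℤ} {a : ℕ → ℤ}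

theorem SymbM.s0 (h : SymbM s a) : s 0 = 0 := by
  have := h.neg 0
  rw [neg_zero] at this
  omega

theorem SymbM.s15 (h : SymbM s a) : s (1 / 5) = s (1 / 3) := by
  have h1 := h.aff (A := -5) (B := 1) (C' := 1) (D := -3) (by norm_num) (x := 1) (c := 5)
    (by norm_num)
  have h2 := h.neg (1 / 3)
  have h3 := h.s0
  norm_num at h1 h2 h3 ⊢
  linarith

theorem SymbM.s25 (h : SymbM s a) : s (2 / 5) = 0 := by
  have h1 := h.inv 5 2 3 (by norm_num) (by norm_num)
  have e1 := h.per (-(2 / 5))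
  have e2 := h.neg (2 / 5)
  norm_num at h1 e1 e2
  omega

theorem SymbM.s115 (h : SymbM s a) : s (1 / 15) = 0 := by
  have h1 := h.aff (A := 1) (B := 0) (C' := 1) (D := 1) (by norm_num) (x := 1) (c := -15)
    ⟨-1, -1, by norm_num⟩
  have h2 := h.neg (1 / 15)
  have h3 := h.s0
  have h4 := h.per (-1)
  norm_num at h1 h2 h3 h4 ⊢
  omega

theorem SymbM.s415 (h : SymbM s a) : s (4 / 15) = 2 * s (1 / 3) := by
  have h1 := h.hecke 3 Nat.prime_three (by norm_num) (1 / 5)
  rw [h.a3] at h1
  simp only [Finset.sum_range_succ, Finset.sum_range_zero] at h1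
  have e1 := h.per (-(2 / 5))
  have e2 := h.neg (2 / 5)
  have e3 := h.s25
  have e4 := h.s115
  have e5 := h.s15
  have e6 := h.per (-(4 / 15))
  have e7 := h.neg (4 / 15)
  norm_num at h1 e1 e2 e3 e4 e5 e6 e7 ⊢
  omega

theorem SymbM.s215 (h : SymbM s a) (h5 : a 5 = 0) : s (2 / 15) = 0 := by
  have h1 := h.hecke 5 (by norm_num) (by norm_num) (1 / 3)
  rw [h5] at h1
  simp only [Finset.sum_range_succ, Finset.sum_range_zero] at h1
  have e1 := h.per (2 / 3)
  have e2 := h.per (-(1 / 3))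
  have e3 := h.neg (1 / 3)
  have e4 := h.s115
  have e5 := h.s415
  have e6 := h.inv 15 2 8 (by norm_num) (by norm_num)
  have e7 := h.per (-(7 / 15))
  have e8 := h.neg (7 / 15)
  have e9 := h.per (-(2 / 15))
  have e10 := h.neg (2 / 15)
  norm_num at h1 e1 e2 e3 e4 e5 e6 e7 e8 e9 e10 ⊢
  omega

theorem SymbM.s613 (h : SymbM s a) : s (6 / 13) = 0 := by
  have h1 := h.aff (A := 1) (B := 0) (C' := 1) (D := 1) (by norm_num) (x := 2) (c := -13)
    ⟨-6, -13, by norm_num⟩
  have h2 := h.neg (2 / 13)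
  have h3 := h.s215 h.a5
  have h4 := h.inv 13 6 2 (by norm_num) (by norm_num)
  have h5 := h.s0
  norm_num at h1 h2 h3 h4 h5 ⊢
  omega

theorem Fq13 : Fq 7 3 1 = 0 := by decide +kernel
theorem Fq15 : Fq 7 5 1 = 0 := by decide +kernel
theorem Fq613 : Fq 7 13 6 = 1 := by decide +kernel

/-- the symbol is given by the counting function -/
def Gd (s : ℚ → ℤ) (x M : ℤ) : Prop := (s ((x : ℚ) / M) : ℚ) = s (1 / 3) * (EM x M - 3 * G1 x M)

theorem Gd.neg_neg {x M : ℤ} (hM : M ≠ 0) (h : Gd s x M) : Gd s (-x) (-M) := by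
  unfold Gd at h ⊢
  rw [G1_neg_neg, EM_neg_neg hM, ← h]
  push_cast
  rw [neg_div_neg_eq]

theorem Gd.neg (H : SymbM s a) {x M : ℤ} (hM : M ≠ 0) (h : Gd s x M) : Gd s (-x) M := by
  unfold Gd at h ⊢
  rw [G1_neg, EM_neg hM]
  push_cast
  rw [neg_div, H.neg]
  push_cast
  linear_combination -h

theorem Gd.add (H : SymbM s a) {x M : ℤ} (hM : M ≠ 0) (m : ℤ) (h : Gd s x M) :
    Gd s (x + m * M) M := by
  unfold Gd at h ⊢
  have hMq : (M : ℚ) ≠ 0 := by exact_mod_cast hM
  have e : (((x + m * M : ℤ) : ℚ) / M) = (x : ℚ) / M + m := by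
    push_cast
    field_simp
  rw [e, per_int H.per, G1_add, EM_add, ← h]

theorem Gd.one (H : SymbM s a) (x : ℤ) : Gd s x 1 := by
  unfold Gd
  have e : ((x : ℚ) / ((1 : ℤ) : ℚ)) = 0 + (x : ℤ) := by simp
  rw [e, per_int H.per, G1_one, EM_one, H.s0]
  simp

theorem Gd.of_aff (H : SymbM s a) {A B D : ℤ} {c : ℕ} (hdet : A * D - B * (14 * c) = 1)
    (hc : 0 < c) {x M : ℤ} (hcop : IsCoprime (14 * x) M) (hM : M ≠ 0)
    (hK : 14 * c * x + D * M ≠ 0)
    (h1 : Gd s (A * x + B * M) (14 * c * x + D * M))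
    (h2 : Gd s B D) : Gd s x M := by
  unfold Gd at h1 h2 ⊢
  have h3 := G1_aff (a := A) (b := B) (c := 14 * c) (d := D) hdet ⟨c, rfl⟩ (NV_cop hcop)
  have h4 := H.aff hdet hcop
  have h5 := EM_aff hdet hc hcop hM hK
  rw [h3, h4, h5] at h1
  push_cast at h1
  linear_combination h1 - h2

theorem Gd13 (hF : S_FORM) : Gd s 1 3 := by
  have h1 := hF 3 1 (by decide) ⟨-1, 5, by norm_num⟩
  have e : (((1 : ℤ) : ℚ) / ((3 : ℤ) : ℚ)) = 1 / 3 := by norm_num
  rw [Fq13] at h1
  unfold Gd
  have h2 : G1 1 3 = 0 := by simpa using h1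
  rw [e, EM13, h2]
  norm_num

theorem Gd15 (hF : S_FORM) (H : SymbM s a) : Gd s 1 5 := by
  have h1 := hF 5 1 (by decide) ⟨-1, 3, by norm_num⟩
  have e : (((1 : ℤ) : ℚ) / ((5 : ℤ) : ℚ)) = 1 / 5 := by norm_num
  rw [Fq15] at h1
  unfold Gd
  have h2 : G1 1 5 = 0 := by simpa using h1
  rw [e, EM15, h2, H.s15]
  norm_num

theorem Gd613 (hF : S_FORM) (H : SymbM s a) : Gd s 6 13 := by
  have h1 := hF 13 6 (by decide) ⟨-2, 13, by norm_num⟩
  have e : (((6 : ℤ) : ℚ) / ((13 : ℤ) : ℚ)) = 6 / 13 := by norm_num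
  rw [Fq613] at h1
  unfold Gd
  have h2 : G1 6 13 = 2 := by simpa using h1
  rw [e, EM613, h2, H.s613]
  norm_num

theorem Gd_all (hF : S_FORM) (H : SymbM s a) (n : ℕ) : ∀ x M : ℤ, M.natAbs = n → M ≠ 0 →
    IsCoprime (14 * x) M → Gd s x M := by
  induction n using Nat.strong_induction_on with
  | _ n ih =>
    intro x M hn hM0 hcop
    -- reduction to positive denominators
    wlog hMp : 0 < M generalizing x M
    · have h1 := this (-x) (-M) (by rw [Int.natAbs_neg, hn]) (neg_ne_zero.2 hM0)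
        (by rw [mul_neg]; exact hcop.neg_neg) (by omega)
      have h2 := h1.neg_neg (neg_ne_zero.2 hM0)
      rwa [_root_.neg_neg, _root_.neg_neg] at h2
    rcases eq_or_ne M 1 with rfl | hM1
    · exact Gd.one H x
    have hodd : M % 2 = 1 := by
      rcases Int.emod_two_eq_zero_or_one M with h1 | h1
      · exfalso
        have h2 : (2 : ℤ) ∣ 14 * x := ⟨7 * x, by ring⟩
        have h3 := hcop.isUnit_of_dvd' h2 (Int.dvd_of_emod_eq_zero h1)
        rw [Int.isUnit_iff] at h3
        omega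
      · exact h1
    -- `14 x` is not divisible by `M`
    have hnd : ∀ j : ℤ, 14 * x ≠ j * M := by
      intro j hj
      have h3 := hcop.isUnit_of_dvd' (Dvd.intro_left j hj.symm) (dvd_refl M)
      rw [Int.isUnit_iff] at h3
      omega
    -- the general step
    have step : ∀ (y : ℤ), IsCoprime (14 * y) M → 0 < y → 2 * y < M → Gd s y M := by
      intro y hy hy0 hy1
      have hnd' : ∀ j : ℤ, 14 * y ≠ j * M := by
        intro j hj
        have h3 := hy.isUnit_of_dvd' (Dvd.intro_left j hj.symm) (dvd_refl M)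
        rw [Int.isUnit_iff] at h3
        omega
      have main : ∀ (A B D : ℤ) (c : ℕ), A * D - B * (14 * c) = 1 → 0 < c →
          |14 * c * y + D * M| < M → Gd s B D → Gd s y M := by
        intro A B D c hdet hc hlt hBD
        have hK : 14 * (c : ℤ) * y + D * M ≠ 0 := by
          intro h0
          have h1 : D % 2 = 1 := by
            rcases Int.emod_two_eq_zero_or_one D with h1 | h1
            · exfalso
              obtain ⟨d, hd⟩ := Int.dvd_of_emod_eq_zero h1
              rw [hd] at hdet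
              have : (2 : ℤ) ∣ 1 := ⟨A * d - B * (7 * c), by rw [← hdet]; ring⟩
              norm_num at this
            · exact h1
          obtain ⟨d, hd⟩ : ∃ d, D = 2 * d + 1 := ⟨D / 2, by omega⟩
          obtain ⟨e, he⟩ : ∃ e, M = 2 * e + 1 := ⟨M / 2, by omega⟩
          rw [hd, he] at h0
          have : (2 : ℤ) ∣ 1 := ⟨-(7 * c * y + 2 * d * e + d + e), by linear_combination h0⟩
          norm_num at this
        refine Gd.of_aff H hdet hc hy hM0 hK ?_ hBD
        refine ih _ ?_ _ _ rfl hK ?_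
        · rw [← hn]
          zify
          rw [abs_of_pos hMp]
          exact hlt
        · -- coprimality
          obtain ⟨u, v, huv⟩ := hy
          have h14 : IsCoprime (14 : ℤ) (14 * (c : ℤ) * y + D * M) := by
            have h1 : IsCoprime (14 : ℤ) (D * M) := by
              refine IsCoprime.mul_right ⟨-(B * c), A, by linear_combination hdet⟩
                ⟨u * y, v, by linear_combination huv⟩
            have h2 : 14 * (c : ℤ) * y + D * M = D * M + 14 * (c * y) := by ring
            rw [h2]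
            exact (IsCoprime.add_mul_left_right_iff).2 h1
          refine IsCoprime.mul_left h14 ?_
          -- Bezout from the inverse matrix
          refine ⟨u * 14 * D - v * (14 * c), -(u * 14 * B) + v * A, ?_⟩
          linear_combination (u * 14 * y + v * M) * hdet + huv
      have c1 : 14 * y < 2 * M ∨ (2 * M < 14 * y ∧ 14 * y < 4 * M) ∨
          (4 * M < 14 * y ∧ 14 * y < 6 * M) ∨ (6 * M < 14 * y ∧ 14 * y < 7 * M) := by
        have := hnd' 2
        have := hnd' 4
        have := hnd' 6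
        omega
      rcases c1 with c1 | c1 | c1 | c1
      · refine main (-1) 0 (-1) 1 (by norm_num) one_pos ?_ ?_
        · rw [abs_lt]
          push_cast
          constructor <;> omega
        · have h1 := (Gd.one H 0).neg_neg one_ne_zero
          exact h1
      · refine main (-5) 1 (-3) 1 (by norm_num) one_pos ?_ ?_
        · rw [abs_lt]
          push_cast
          constructor <;> omega
        · have h1 := ((Gd13 (s := s) hF).neg H (by norm_num)).neg_neg (by norm_num)
          exact h1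
      · refine main (-3) 1 (-5) 1 (by norm_num) one_pos ?_ ?_
        · rw [abs_lt]
          push_cast
          constructor <;> omega
        · have h1 := ((Gd15 hF H).neg H (by norm_num)).neg_neg (by norm_num)
          exact h1
      · refine main (-13) 6 (-13) 2 (by norm_num) two_pos ?_ ?_
        · rw [abs_lt]
          push_cast
          constructor <;> omega
        · have h1 := ((Gd613 hF H).neg H (by norm_num)).neg_neg (by norm_num)
          exact h1
    -- reduce `x` modulo `M`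
    obtain ⟨y, m, hxy, hy0, hyM⟩ : ∃ y m : ℤ, x = y + m * M ∧ 0 ≤ y ∧ y < M :=
      ⟨x % M, x / M, by linear_combination -(Int.emod_add_mul_ediv x M), Int.emod_nonneg _ hM0,
        Int.emod_lt_of_pos _ hMp⟩
    have hcy : IsCoprime (14 * y) M := by
      have h1 : 14 * x = 14 * y + (14 * m) * M := by rw [hxy]; ring
      rw [h1] at hcop
      exact (IsCoprime.add_mul_right_left_iff).1 hcop
    have hy00 : y ≠ 0 := by
      rintro rfl
      exact hnd (14 * m) (by rw [hxy]; ring)
    rw [hxy]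
    refine Gd.add H hM0 m ?_
    rcases lt_or_ge (2 * y) M with h1 | h1
    · exact step y hcy (by omega) h1
    · have h2 : IsCoprime (14 * (M - y)) M := by
        have h3 : 14 * (M - y) = -(14 * y) + 14 * M := by ring
        rw [h3]
        exact (IsCoprime.add_mul_right_left_iff).2 hcy.neg_left
      have h3 := step (M - y) h2 (by omega) (by omega)
      have h4 := (h3.neg H hM0).add H hM0 1
      have e : -(M - y) + 1 * M = y := by ring
      rwa [e] at h4

/-- the explicit formula -/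
theorem symbM_formula (hF : S_FORM) (H : SymbM s a) (n : ℕ) (x : ℤ) (hn : Odd n)
    (hcop : IsCoprime (14 * x) (n : ℤ)) :
    (s ((x : ℚ) / n) : ℚ) = s (1 / 3) * (EM x n - 6 * Fq 7 n x) := by
  have hn0 : (n : ℤ) ≠ 0 := by
    rintro h0
    obtain ⟨k, hk⟩ := hn
    omega
  have h1 := Gd_all hF H (n : ℤ).natAbs x n rfl hn0 hcop
  unfold Gd at h1
  rw [hF n x hn hcop] at h1
  push_cast at h1 ⊢
  rw [h1]
  ring

end

end Pool.Agent.Y687.N
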