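import Pool.Agent.Y687.N.MainN
import Pool.Agent.Y287.ZN.Ind3S
import Pool.Agent.Y655.Z17N.Half
import Pool.Agent.Y655.Z17N.T8
import Pool.Agent.Y929.NQ.Indqs
import Pool.Agent.Y441.ZN.PR
import Pool.Agent.Y153.ZN.LB
import Pool.Agent.Y574.N.C7
import Pool.Agent.Z125.N.Gen
import Pool.Agent.Z125.N.GENb
import Pool.Agent.Y100.Z17N.Sqac
import Pool.Agent.Y349.ZN.SQ2
import Pool.Agent.Y961.BS.Fix3
import Pool.Agent.Y67.N.LEAF
import Pool.Agent.Y434.N.Rhq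
import Pool.Agent.Y98.ZN.GENb3
import Pool.Agent.Y614.Z17.Gen3
import Pool.Agent.Y17.N.Bil
import Pool.Agent.Y17.N.DefN
import Pool.Agent.Z701.Fin

/-!
# Twists of `X_0(14)` by `- q m`: all the parts together
-/

set_option autoImplicit false
set_option linter.style.haveILetI false

open Finset

namespace Pool.Agent.Y687.N

open Pool.Agent.Y687
open Pool.Agent.Z700 (pr Yd lres xres xrt vec)
open Pool.Agent.Z701 (Sp)
open Pool.Agent.Y17.N (Qr bq g0 eQ cq)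

theorem f_ORI : Pool.Agent.Y17.N.S_ORI := Pool.Agent.Y441.ZN.t_ORI
theorem f_BIL : Pool.Agent.Y17.N.S_BIL := Pool.Agent.Y17.N.t_BIL (Pool.Agent.Y441.ZN.t_PR f_ORI)
  Pool.Agent.Y153.ZN.t_LB (Pool.Agent.Y574.N.t_C7 Pool.Agent.Z700.f_PC)
theorem f_T8 : Pool.Agent.Y17.N.S_T8 := Pool.Agent.Y655.Z17N.t_T8 f_ORI
theorem f_HALF : Pool.Agent.Y17.N.S_HALF := Pool.Agent.Y655.Z17N.t_HALF
theorem f_RHQ : Pool.Agent.Y17.N.S_RHQ := Pool.Agent.Y434.N.t_RHQ f_HALF Pool.Agent.Y67.N.t_LEAF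
theorem f_GEN3 : Pool.Agent.Y17.N.S_GEN3 := Pool.Agent.Y614.Z17.t_GEN3 Pool.Agent.Y98.ZN.t_GENb3
theorem f_IND3S : Pool.Agent.Y17.N.S_IND3S := Pool.Agent.Y287.ZN.t_IND3S f_BIL f_T8 f_RHQ f_GEN3
  Pool.Agent.Y614.Z17.t_FIXT

theorem f_INDQS : Pool.Agent.Y17.N.S_INDQS := Pool.Agent.Y929.NQ.t_INDQS f_BIL f_IND3S
  (Pool.Agent.Z125.N.t_GENQ Pool.Agent.Z125.N.t_GENbQ)
  (Pool.Agent.Y961.BS.t_FIXQ Pool.Agent.Y100.Z17N.t_SQA Pool.Agent.Y349.ZN.t_SQB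
    Pool.Agent.Y100.Z17N.t_SQC)

theorem f_x {p : ℕ} (hp : Sp p) : xres p = xrt p :=
  Pool.Agent.Z701.x_eq Pool.Agent.Z700.f_SYM Pool.Agent.Z701.f_DIAG Pool.Agent.Z701.f_IND
    Pool.Agent.Y655.Z7.t_RTE hp

theorem eQ_lres {p q : ℕ} (hp : Sp p) (hq : NegP q) : eQ q p = lres p q := by
  have hrec : jacobiSym p q = jacobiSym q p :=
    jacobiSym.quadratic_reciprocity_one_mod_four (by have := hp.2.1; omega)
      (by rw [Nat.odd_iff]; have := hq.2.1; omega)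
  unfold eQ lres
  rw [hrec]
  simp only [or_self]

/-- the two forms of the determinant condition -/
theorem Yd_neg {P : Finset ℕ} {q : ℕ} (hP : ∀ p ∈ P, Sp p) (hq : NegP q) :
    Odd (Yd lres (xrZ (-q)) P) ↔ Odd (Yd lres (fun p => xres p + eQ q p) P) :=
  Pool.Agent.Z701.Yd_mod2 fun p hp => by
    rw [xrZ_neg (hP p hp) hq.1 (by have := hq.2.1; omega), f_x (hP p hp), eQ_lres (hP p hp) hq]

/-- the definite side -/
theorem def_neg {P : Finset ℕ} {q : ℕ} (hP : ∀ p ∈ P, Sp p) (hq : NegP q) :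
    Def (q * pr P) (g0 ((q * pr P : ℕ) : ℤ) (bq q P)) := by
  obtain ⟨hqP, hGn, h7, hj, hsqf⟩ := neg_facts hP hq
  obtain ⟨h1, h2⟩ := Pool.Agent.Y929.NQ.bq_sq hq hP
  exact Pool.Agent.Y17.N.def_of f_BIL f_T8 hGn.sq hGn.h8 h7 h2 h1

/-- the Gross sum does not vanish under the determinant condition, and its exact power of two -/
theorem g_neg {P : Finset ℕ} {q : ℕ} (hP : ∀ p ∈ P, Sp p) (hq : NegP q)
    (hodd : Odd (Yd lres (xrZ (-q)) P)) :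
    ∃ y : ℤ, Odd y ∧ g0 ((q * pr P : ℕ) : ℤ) (bq q P) = 2 ^ P.card * y := by
  obtain ⟨y, h1, h2⟩ := f_INDQS q P hq hP
  exact ⟨y, h2.2 ((Yd_neg hP hq).1 hodd), h1⟩

/-- **weak form for the negative twists** -/
theorem WB_q {P : Finset ℕ} {q : ℕ} (hP : ∀ p ∈ P, Sp p) (hq : NegP q)
    (hodd : Odd (Yd lres (xrZ (-q)) P)) : WB ((pr P : ℤ) * (-(q : ℤ))) := by
  obtain ⟨y, h1, h2⟩ := g_neg hP hq hodd
  refine WB_neg hP hq hodd ⟨_, ?_, def_neg hP hq⟩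
  rw [h2]
  refine mul_ne_zero (by positivity) ?_
  rintro rfl
  exact (by decide : ¬ Odd (0 : ℤ)) h1

end Pool.Agent.Y687.N
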