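import Pool.Agent.Y687.N.FinN

/-!
# The condition for the negative twists in terms of a matrix over `𝔽₂`
-/

set_option autoImplicit false
set_option linter.style.haveILetI false

open Finset

namespace Pool.Agent.Y687.N

open Pool.Agent.Y687
open Pool.Agent.Z700 (pr Yd lres xrt)
open Pool.Agent.Z701 (Sp)
open Pool.Agent.Y700 (Rt)

open Classical in
/-- the matrix over `𝔽₂` -/
noncomputable def matN (P : Finset ℕ) (q : ℕ) : Matrix P P (ZMod 2) := Matrix.of fun i j =>
  if i = j then
    ((((insert q P).filter fun r : ℕ => r ≠ (i : ℕ) ∧ ¬ IsSquare (r : ZMod (i : ℕ))).card :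
      ZMod 2) + if 8 ∣ NN 1 (i : ℕ) then 0 else 1)
  else if IsSquare (((j : ℕ)) : ZMod (i : ℕ)) then 0 else 1

theorem lres_iff' {p q : ℕ} (hp : Sp p) (hq : q.Prime) (hne : p ≠ q) (hq2 : Odd q) :
    lres p q = 1 ∧ ¬ IsSquare (q : ZMod p) ∨ lres p q = 0 ∧ IsSquare (q : ZMod p) := by
  haveI : Fact p.Prime := ⟨hp.1⟩
  haveI : Fact q.Prime := ⟨hq⟩
  have hrec : jacobiSym p q = jacobiSym q p :=
    jacobiSym.quadratic_reciprocity_one_mod_four (by have := hp.2.1; omega) hq2
  have hq0 : ((q : ℤ) : ZMod p) ≠ 0 := by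
    rw [Ne, ZMod.intCast_zmod_eq_zero_iff_dvd, Int.natCast_dvd_natCast]
    intro h
    exact hne ((Nat.prime_dvd_prime_iff_eq hp.1 hq).1 h)
  have h1 : jacobiSym q p = 1 ↔ IsSquare (q : ZMod p) := by
    rw [← jacobiSym.legendreSym.to_jacobiSym, legendreSym.eq_one_iff _ hq0]
    push_cast
    exact Iff.rfl
  have h2 : jacobiSym q p = 1 ∨ jacobiSym q p = -1 := by
    refine jacobiSym.eq_one_or_neg_one ?_
    rw [Int.gcd_natCast_natCast]
    exact ((Nat.coprime_primes hp.1 hq).2 hne).symm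
  unfold lres
  rw [hrec]
  rcases h2 with h | h
  · right
    rw [h]
    exact ⟨by norm_num, h1.1 h⟩
  · left
    rw [h]
    refine ⟨by norm_num, fun h3 => ?_⟩
    rw [h1.2 h3] at h
    norm_num at h

theorem mat_iff {P : Finset ℕ} {q : ℕ} (hP : ∀ p ∈ P, Sp p) (hq : NegP q) :
    (matN P q).det ≠ 0 ↔ Odd (Yd lres (xrZ (-q)) P) := by
  classical
  have hq4 : q % 4 = 3 := by have := hq.2.1; omega
  have hqP : q ∉ P := fun h => by
    have h1 := (hP q h).2.1
    have h2 := hq.2.1
    omega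
  have h1 : Odd (Yd lres (xrZ (-q)) P) ↔ Odd (Yd lres (fun p => xrt p + lres p q) P) :=
    Pool.Agent.Z701.Yd_mod2 fun p hp => xrZ_neg (hP p hp) hq.1 hq4
  have h2 : ∀ z : ℤ, Odd z ↔ (z : ZMod 2) ≠ 0 := by
    intro z
    rw [← Int.not_even_iff_odd, ← ZMod.intCast_eq_zero_iff_even]
  rw [h1, h2]
  have hodd : ∀ r ∈ insert q P, Odd r := by
    intro r hr
    rw [Nat.odd_iff]
    rcases Finset.mem_insert.1 hr with rfl | hr
    · omega
    · have := (hP r hr).2.1
      omega
  have hpr : ∀ r ∈ insert q P, r.Prime := by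
    intro r hr
    rcases Finset.mem_insert.1 hr with rfl | hr
    · exact hq.1
    · exact (hP r hr).1
  have h3 : ((Yd lres (fun p => xrt p + lres p q) P : ℤ) : ZMod 2) = (matN P q).det := by
    unfold Yd
    have e1 := fun M : Matrix P P ℤ => (Int.castRingHom (ZMod 2)).map_det M
    simp only [eq_intCast] at e1
    rw [e1]
    congr 1
    ext i j
    have hi := hP i.1 i.2
    simp only [RingHom.mapMatrix_apply, Matrix.map_apply, Matrix.of_apply, eq_intCast, matN]
    by_cases hij : i = j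
    · subst hij
      rw [if_pos rfl, if_pos rfl]
      push_cast
      have e2 : (∑ k ∈ P.erase i.1, ((lres i.1 k : ℤ) : ZMod 2)) + ((lres i.1 q : ℤ) : ZMod 2) =
          (((insert q P).filter fun r : ℕ => r ≠ (i : ℕ) ∧ ¬ IsSquare (r : ZMod (i : ℕ))).card :
            ZMod 2) := by
        have hqi : q ≠ (i : ℕ) := fun h => hqP (h ▸ i.2)
        rw [Finset.card_filter]
        push_cast
        rw [← Finset.sum_erase (s := insert q P) (a := i.1) (by rw [if_neg (fun h => h.1 rfl)]),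
          Finset.erase_insert_of_ne hqi, Finset.sum_insert (fun h => hqP (Finset.mem_of_mem_erase h)),
          add_comm]
        have key : ∀ k ∈ insert q P, k ≠ (i : ℕ) → ((lres i.1 k : ℤ) : ZMod 2) =
            if k ≠ (i : ℕ) ∧ ¬ IsSquare (k : ZMod (i : ℕ)) then 1 else 0 := by
          intro k hk hk1
          rcases lres_iff' hi (hpr k hk) (Ne.symm hk1) (hodd k hk) with ⟨a, b⟩ | ⟨a, b⟩
          · rw [a, if_pos ⟨hk1, b⟩]; norm_num
          · rw [a, if_neg (fun h => h.2 b)]; norm_num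
        rw [key q (Finset.mem_insert_self q P) hqi]
        congr 1
        refine Finset.sum_congr rfl fun k hk => ?_
        exact key k (Finset.mem_insert_of_mem (Finset.mem_of_mem_erase hk)) (Finset.mem_erase.1 hk).1
      rw [← e2]
      have e3 : ((xrt i.1 : ℤ) : ZMod 2) = if 8 ∣ NN 1 (i : ℕ) then 0 else 1 := by
        have hR := Pool.Agent.Z701.f_RTE i.1 hi ∅ (by simp)
        have e4 : pr ∅ = 1 := by unfold pr; simp
        rw [e4] at hR
        unfold xrt
        by_cases h8 : 8 ∣ NN 1 (i : ℕ)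
        · rw [if_pos h8, if_neg (fun h => (hR.1 h) h8)]
          norm_num
        · rw [if_neg h8, if_pos (hR.2 h8)]
          norm_num
      rw [e3]
      ring
    · rw [if_neg hij, if_neg hij]
      have hj := hP j.1 j.2
      have hne : (i : ℕ) ≠ j := fun h => hij (Subtype.ext h)
      rcases lres_iff' hi hj.1 hne (hodd j.1 (Finset.mem_insert_of_mem j.2)) with ⟨a, b⟩ | ⟨a, b⟩
      · rw [a, if_neg b]; decide
      · rw [a, if_pos b]; norm_num
  rw [h3]

/-- the set of the primes `q` -/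
theorem inf_mat {P : Finset ℕ} (hP : ∀ p ∈ P, Sp p) :
    {q : ℕ | NegP q ∧ (matN P q).det ≠ 0}.Infinite := by
  refine (inf_q P hP).mono ?_
  rintro q ⟨h1, h2⟩
  exact ⟨h1, (mat_iff hP h1).2 h2⟩

end Pool.Agent.Y687.N
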