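import Pool.Agent.Y687.N.Coc
import Pool.Agent.Y687.K4.SymT
import Pool.Agent.Y687.K2.Par
import Pool.Agent.Y687.K5.AsmL

/-!
# The minus symbol of `X_0(14)`
-/

set_option autoImplicit false

open Filter Topology MeasureTheory Set

namespace Pool.Agent.Y687.N

open Pool.Agent.W97.TW Pool.Agent.W97.MT
open Pool.Agent.Y687

/-- the action of the Hecke operators on the integrals -/
theorem II_hecke (q : ℕ) (hq : q.Prime) (hq14 : ¬ q ∣ 14) (x : ℚ) :
    (ap E14 q : ℂ) * II x = II (q * x) + ∑ b ∈ Finset.range q, II ((x + b) / q) := by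
  obtain ⟨L, Op, Om, hOp, hOm, g2, g3, hL⟩ := hlat
  obtain ⟨Ξ, U, P, rΞ, rU, rP, tΞ, tU, tP⟩ := expansions hqe
  have hP0 : PowerSeries.coeff 0 P = 1 := by
    rw [tP 0 (by norm_num)]; rfl
  have hecke' : ∀ z, W97.MT.hecke 14 q form14 z = (ap E14 q : ℂ) * form14 z := by
    intro z
    have h1 := hecke_f14 hcp hqe rP hP0 hq z
    rw [coef_eq L g2 g3 rΞ rU rP tΞ tU tP hq] at h1
    exact h1
  have h1 := hhint 14 q form14 (ap E14 q : ℂ) hq (int_rat L g2 g3) hecke' x
  rw [if_neg hq14, prim_rat, prim_rat] at h1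
  simp_rw [prim_rat] at h1
  linear_combination h1

/-- the odd part of the integral symbol, with the action of the group -/
structure SymbM (s : ℚ → ℤ) (a : ℕ → ℤ) : Prop where
  per : ∀ x, s (x + 1) = s x
  neg : ∀ x, s (-x) = -s x
  hecke : ∀ q : ℕ, q.Prime → ¬ q ∣ 14 → ∀ x,
    a q * s x = s (q * x) + ∑ b ∈ Finset.range q, s ((x + b) / q)
  inv : ∀ (M : ℕ) (b d : ℤ), 0 < M → (M : ℤ) ∣ 14 * b * d + 1 →
    s ((b : ℚ) / M) = s ((d : ℚ) / M)
  aff : ∀ {A B C' D : ℤ}, A * D - B * (14 * C') = 1 → ∀ {x c : ℤ}, IsCoprime (14 * x) c →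
    s (((A * x + B * c : ℤ) : ℚ) / ((14 * C' * x + D * c : ℤ) : ℚ)) =
      s ((x : ℚ) / c) + s ((B : ℚ) / D)
  a3 : a 3 = -2
  a5 : a 5 = 0

theorem exists_symbM : ∃ (t sp sm : ℚ → ℤ) (Op Om : ℝ), 0 < Op ∧ 0 < Om ∧ (∀ r, t r = sp r + sm r) ∧
    (∀ r : ℚ, (3 : ℂ) * II r = sp r * Op + sm r * Om * Complex.I) ∧
    (∀ r, sp (-r) = sp r) ∧ (∀ r, sp (r + 1) = sp r) ∧ SymbM sm (fun q => ap E14 q) ∧ sm (1 / 3) ≠ 0 := by
  obtain ⟨t, sp, sm, Op, Om, hOp, hOm, ht, htt, hs⟩ := exists_symbT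
  -- imaginary parts
  have him : ∀ r : ℚ, 3 * (II r).im = sm r * Om := by
    intro r
    have h := congrArg Complex.im (hs r)
    simpa using h
  have hre : ∀ r : ℚ, 3 * (II r).re = sp r * Op := by
    intro r
    have h := congrArg Complex.re (hs r)
    simpa using h
  have injm : ∀ x y : ℤ, (x : ℝ) * Om = y * Om → x = y := fun x y h => by
    exact_mod_cast mul_right_cancel₀ hOm.ne' h
  have injp : ∀ x y : ℤ, (x : ℝ) * Op = y * Op → x = y := fun x y h => by
    exact_mod_cast mul_right_cancel₀ hOp.ne' h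
  have hneg : ∀ x, sm (-x) = -sm x := by
    intro x
    apply injm
    push_cast
    rw [← him, neg_mul, ← him, II_conj, Complex.conj_im]
    ring
  have hnegp : ∀ x, sp (-x) = sp x := by
    intro x
    apply injp
    rw [← hre, ← hre, II_conj, Complex.conj_re]
  have hsm0 : sm 0 = 0 := by
    have := hneg 0
    rw [neg_zero] at this
    omega
  have hper : ∀ x, sm (x + 1) = sm x := by
    intro x
    apply injm
    rw [← him, ← him, II_add_one]
  have hperp : ∀ x, sp (x + 1) = sp x := by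
    intro x
    apply injp
    rw [← hre, ← hre, II_add_one]
  refine ⟨t, sp, sm, Op, Om, hOp, hOm, htt, hs, hnegp, hperp, ⟨hper, hneg, ?_, ?_, ?_, ap3, ap5⟩, ?_⟩
  · intro q hq hq14 x
    apply injm
    push_cast
    have h1 := congrArg Complex.im (II_hecke q hq hq14 x)
    rw [Complex.add_im, Complex.im_sum] at h1
    have h2 : ((ap E14 q : ℂ) * II x).im = (ap E14 q : ℝ) * (II x).im := by
      simp
    rw [h2] at h1
    rw [add_mul, Finset.sum_mul, ← him, mul_assoc, ← him]
    have h3 : ∀ b ∈ Finset.range q, (sm ((x + b) / q) : ℝ) * Om = 3 * (II ((x + b) / q)).im :=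
      fun b _ => (him _).symm
    rw [Finset.sum_congr rfl h3, ← Finset.mul_sum]
    linear_combination 3 * h1
  · intro M b d hM hd
    have h1 := ht.inv M b d hM hd
    have h2 := ht.inv M (-b) (-d) hM (by
      have : 14 * -b * -d + 1 = 14 * b * d + 1 := by ring
      rw [this]; exact hd)
    have e1 : (((-b : ℤ) : ℚ) / M) = -((b : ℚ) / M) := by push_cast; ring
    have e2 : (((-d : ℤ) : ℚ) / M) = -((d : ℚ) / M) := by push_cast; ring
    rw [e1, e2, htt, htt, hnegp, hnegp, hneg, hneg] at h2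
    rw [htt, htt] at h1
    omega
  · intro A B C' D hdet x c hc
    apply injm
    push_cast
    have h1 := congrArg Complex.im (II_aff hdet hc)
    rw [Complex.sub_im, Complex.add_im] at h1
    have h0 := him 0
    rw [hsm0] at h0
    have e1 := him (((A * x + B * c : ℤ) : ℚ) / ((14 * C' * x + D * c : ℤ) : ℚ))
    have e2 := him ((x : ℚ) / c)
    have e3 := him ((B : ℚ) / D)
    push_cast at e1 h1 h0
    rw [← e1, add_mul, ← e2, ← e3, h1]
    linarith
  · intro h0
    have h1 := II_hecke 3 Nat.prime_three (by norm_num) 0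
    have h2 := congrArg Complex.re h1
    rw [ap3] at h2
    simp only [Finset.sum_range_succ, Finset.sum_range_zero] at h2
    norm_num at h2
    have e0 := hre 0
    have e1 := hre (1 / 3)
    have e2 := hre (2 / 3)
    have h3 : sp (2 / 3) = sp (1 / 3) := by
      have a1 := hperp (-(1 / 3))
      have a2 := hnegp (1 / 3)
      norm_num at a1 a2
      rw [a1, a2]
    rw [h3] at e2
    norm_num at e1 e2
    have h4 : sp (1 / 3) = -2 * sp 0 := by
      apply injp
      push_cast
      norm_num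
      linarith
    have h5 := ht.odd 3 1 (by norm_num) (by norm_num)
    rw [htt] at h5
    have e3 : (((1 : ℤ) : ℚ) / ((3 : ℕ) : ℚ)) = 1 / 3 := by norm_num
    rw [e3, h4, h0] at h5
    obtain ⟨k, hk⟩ := h5
    omega

end Pool.Agent.Y687.N
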