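import Pool.Agent.Y687.N.Char

/-!
# The class number relation and the value of the sum of the symbols
-/

set_option autoImplicit false
set_option linter.style.haveILetI false

open Finset

namespace Pool.Agent.Y687.N

open Pool.Agent.Y687
open Pool.Agent.Z700 (un vec loc)

/-- the conditions on `n` -/
structure Gn (n : ℕ) : Prop where
  sq : Squarefree n
  h8 : n % 8 = 3

theorem Gn.odd {n : ℕ} (h : Gn n) : Odd n := Nat.odd_iff.2 (by have := h.h8; omega)
theorem Gn.ne {n : ℕ} (h : Gn n) : n ≠ 0 := h.sq.ne_zero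
theorem Gn.pos {n : ℕ} (h : Gn n) : 0 < n := Nat.pos_of_ne_zero h.ne

theorem Gn.jneg {n : ℕ} (h : Gn n) : jacobiSym (-1) n = -1 := by
  rw [jacobiSym.at_neg_one h.odd]
  have h4 : n % 4 = 3 := by have := h.h8; omega
  exact ZMod.χ₄_nat_three_mod_four h4

theorem Gn.j2 {n : ℕ} (h : Gn n) : jacobiSym 2 n = -1 := by
  rw [jacobiSym.at_two h.odd, ZMod.χ₈_nat_mod_eight, h.h8]
  decide

theorem Gn.jhalf {n : ℕ} (h : Gn n) : jacobiSym (((n + 1) / 2 : ℕ) : ℤ) n = -1 := by
  have h1 : jacobiSym (2 * (((n + 1) / 2 : ℕ) : ℤ)) n = 1 := by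
    have h2 : (2 * (((n + 1) / 2 : ℕ) : ℤ)) = n + 1 := by
      have := h.h8
      omega
    rw [h2, jac_congr (y := 1) ⟨1, by ring⟩, jacobiSym.one_left]
  rw [jacobiSym.mul_left, h.j2] at h1
  omega

theorem un_dvd {n u : ℕ} (hu : u ∈ un n) : (n : ℤ) ∣ (u : ℤ) * (((u : ZMod n)⁻¹).val : ℤ) - 1 := by
  have hu := mem_rr.1 (show u ∈ rr n from hu)
  haveI : NeZero n := ⟨by omega⟩
  rw [← ZMod.intCast_zmod_eq_zero_iff_dvd]
  push_cast
  rw [ZMod.natCast_zmod_val, ZMod.coe_mul_inv_eq_one u hu.2, sub_self]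

/-- the analytic evaluation for level two -/
theorem sum_lvl2 (hL : S_LVL2) {n : ℕ} (h : Gn n) :
    ∑ u ∈ un n, (jacobiSym (u : ℤ) n : ℚ) * (Fq 1 n u : ℚ) = 24 * HH n ^ 2 + 2 * HH n := by
  have h1 : ∀ u ∈ un n, (jacobiSym (u : ℤ) n : ℚ) * (Fq 1 n u : ℚ) =
      12 * ((jacobiSym (u : ℤ) n : ℚ) * ded (1 * u) n) - 12 * ((jacobiSym (u : ℤ) n : ℚ) * ded (2 * u) n)
      + (jacobiSym (u : ℤ) n : ℚ) * saw n (1 * u) -
      (jacobiSym (u : ℤ) n : ℚ) * saw n ((((n + 1) / 2 : ℕ) : ℤ) * (((u : ZMod n)⁻¹).val : ℤ)) := by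
    intro u hu
    rw [hL n u (((u : ZMod n)⁻¹).val : ℤ) h.odd (un_dvd hu), one_mul]
    push_cast
    ring
  rw [sum_congr rfl h1, sum_sub_distrib, sum_add_distrib, sum_sub_distrib, ← mul_sum, ← mul_sum,
    sum_un h.ne (fun u => ded (1 * (u : ℤ)) n), sum_un h.ne (fun u => ded (2 * (u : ℤ)) n),
    sum_un h.ne (fun u => saw n (1 * (u : ℤ))), char_inv h.odd h.sq, char_ded h.odd h.sq,
    char_ded h.odd h.sq, char_saw h.odd h.sq, h.j2, h.jhalf, jacobiSym.one_left]
  push_cast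
  ring

/-- the analytic evaluation of the Eisenstein part -/
theorem sum_EM {n : ℕ} (h : Gn n) (h7 : jacobiSym 7 n = 1) :
    ∑ u ∈ un n, (jacobiSym (u : ℤ) n : ℚ) * EM u n = 18 * HH n ^ 2 := by
  have hs : (n : ℤ).sign = 1 := Int.sign_eq_one_of_pos (by exact_mod_cast h.pos)
  have h14 : jacobiSym 14 n = -1 := by
    have : (14 : ℤ) = 2 * 7 := by norm_num
    rw [this, jacobiSym.mul_left, h.j2, h7]
    rfl
  have h1 : ∀ u ∈ un n, (jacobiSym (u : ℤ) n : ℚ) * EM u n =
      (1 / 2) * (5 * ((jacobiSym (u : ℤ) n : ℚ) * ded (1 * u) n) -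
        13 * ((jacobiSym (u : ℤ) n : ℚ) * ded (2 * u) n) +
        13 * ((jacobiSym (u : ℤ) n : ℚ) * ded (7 * u) n) -
        5 * ((jacobiSym (u : ℤ) n : ℚ) * ded (14 * u) n)) := by
    intro u hu
    unfold EM psi
    rw [hs, Int.natAbs_natCast, one_mul]
    push_cast
    ring
  rw [sum_congr rfl h1, ← mul_sum, sum_sub_distrib, sum_add_distrib, sum_sub_distrib, ← mul_sum,
    ← mul_sum, ← mul_sum, ← mul_sum,
    sum_un h.ne (fun u => ded (1 * (u : ℤ)) n), sum_un h.ne (fun u => ded (2 * (u : ℤ)) n),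
    sum_un h.ne (fun u => ded (7 * (u : ℤ)) n), sum_un h.ne (fun u => ded (14 * (u : ℤ)) n),
    char_ded h.odd h.sq, char_ded h.odd h.sq, char_ded h.odd h.sq, char_ded h.odd h.sq,
    h.j2, h7, h14, jacobiSym.one_left]
  push_cast
  ring

theorem Cd_congr {n : ℕ} {x y : ℤ} (h : (n : ℤ) ∣ x - y) (w : Σ _ : ℕ, ℕ × ℕ) :
    Cd n x w ↔ Cd n y w := by
  unfold Cd
  have e1 : (n : ℤ) ∣ ((w.2.1 : ℤ) * x - ((w.1 / w.2.2 : ℕ) : ℤ)) -
      ((w.2.1 : ℤ) * y - ((w.1 / w.2.2 : ℕ) : ℤ)) := by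
    have : ((w.2.1 : ℤ) * x - ((w.1 / w.2.2 : ℕ) : ℤ)) -
      ((w.2.1 : ℤ) * y - ((w.1 / w.2.2 : ℕ) : ℤ)) = w.2.1 * (x - y) := by ring
    rw [this]
    exact Dvd.dvd.mul_left h _
  have e2 : (n : ℤ) ∣ ((w.2.2 : ℤ) * x + (((n - w.1) / w.2.1 : ℕ) : ℤ)) -
      ((w.2.2 : ℤ) * y + (((n - w.1) / w.2.1 : ℕ) : ℤ)) := by
    have : ((w.2.2 : ℤ) * x + (((n - w.1) / w.2.1 : ℕ) : ℤ)) -
      ((w.2.2 : ℤ) * y + (((n - w.1) / w.2.1 : ℕ) : ℤ)) = w.2.2 * (x - y) := by ring
    rw [this]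
    exact Dvd.dvd.mul_left h _
  rw [(dvd_iff_dvd_of_dvd_sub e1), (dvd_iff_dvd_of_dvd_sub e2)]

theorem Nq_congr {d n : ℕ} {x y : ℤ} (h : (n : ℤ) ∣ x - y) : Nq d n x = Nq d n y := by
  unfold Nq
  congr 2
  exact filter_congr fun w _ => Cd_congr h w

/-- the character sum of the crossing numbers -/
theorem sum_Fq {d n : ℕ} (h : Gn n) :
    ∑ u ∈ un n, (jacobiSym (u : ℤ) n) * (Fq d n u) = -2 * ∑ u ∈ un n, (jacobiSym (u : ℤ) n) * (Nq d n u) := by
  have h1 : ∑ u ∈ un n, (jacobiSym (u : ℤ) n) * (Nq d n (-u)) =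
      ∑ u ∈ un n, -((jacobiSym (u : ℤ) n) * (Nq d n u)) := by
    refine sum_nbij' (fun u => n - u) (fun u => n - u) ?_ ?_ ?_ ?_ ?_
    · intro u hu
      have hu := mem_rr.1 (show u ∈ rr n from hu)
      refine mem_rr.2 ?_
      have hu0 : 0 < u := by
        rcases Nat.eq_zero_or_pos u with h0 | h0
        · subst h0
          have := hu.2
          rw [Nat.coprime_zero_left] at this
          have := h.h8
          omega
        · exact h0
      exact ⟨by omega, by rw [Nat.coprime_comm]; exact (Nat.coprime_self_sub_right hu.1.le).2 hu.2.symm⟩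
    · intro u hu
      have hu := mem_rr.1 (show u ∈ rr n from hu)
      refine mem_rr.2 ?_
      have hu0 : 0 < u := by
        rcases Nat.eq_zero_or_pos u with h0 | h0
        · subst h0
          have := hu.2
          rw [Nat.coprime_zero_left] at this
          have := h.h8
          omega
        · exact h0
      exact ⟨by omega, by rw [Nat.coprime_comm]; exact (Nat.coprime_self_sub_right hu.1.le).2 hu.2.symm⟩
    · intro u hu
      have hu := mem_rr.1 (show u ∈ rr n from hu)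
      show n - (n - u) = u
      omega
    · intro u hu
      have hu := mem_rr.1 (show u ∈ rr n from hu)
      show n - (n - u) = u
      omega
    · intro u hu
      have hu := mem_rr.1 (show u ∈ rr n from hu)
      have e : ((n - u : ℕ) : ℤ) = n - u := by
        rw [Nat.cast_sub hu.1.le]
      rw [e, Nq_congr (x := -(u : ℤ)) (y := (n : ℤ) - u) ⟨-1, by ring⟩]
      have e2 : jacobiSym ((n : ℤ) - u) n = -jacobiSym (u : ℤ) n := by
        rw [jac_congr (x := (n : ℤ) - u) (y := (-1) * u) ⟨1, by ring⟩, jacobiSym.mul_left, h.jneg]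
        ring
      rw [e2]
      ring
  unfold Fq
  simp_rw [mul_sub]
  rw [sum_sub_distrib, h1, sum_neg_distrib]
  ring

/-- the counting side -/
theorem sum_Nq (hC : S_C1B) {d n : ℕ} (h : Gn n) :
    ∑ u ∈ un n, (jacobiSym (u : ℤ) n) * (Nq d n u) = ∑ T ∈ range n, WN d n T := by
  classical
  have h1 : ∀ u ∈ un n, (jacobiSym (u : ℤ) n) * (Nq d n u) =
      ∑ w ∈ Om d n, if Cd n u w then jacobiSym (u : ℤ) n else 0 := by
    intro u _
    unfold Nq
    rw [← sum_filter, sum_const, nsmul_eq_mul]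
    ring
  rw [sum_congr rfl h1, sum_comm]
  unfold Om
  rw [sum_sigma]
  refine sum_congr rfl fun T hT => ?_
  unfold WN
  rw [sum_product]
  refine sum_congr rfl fun a ha => ?_
  refine sum_congr rfl fun a' ha' => ?_
  rw [mem_filter, Nat.mem_divisors] at ha ha'
  have hT := mem_range.1 hT
  rw [← sum_filter]
  refine hC n h.odd h.sq a a' (T / a') ((n - T) / a) ?_
  rw [Nat.mul_div_cancel' ha.1.1, Nat.mul_div_cancel' ha'.1.1]
  omega

/-- the sum for level two -/
theorem sum_one (hC : S_C1B) (h2 : S_C21) {n : ℕ} (h : Gn n) :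
    ∑ u ∈ un n, (jacobiSym (u : ℤ) n) * (Fq 1 n u) =
      2 * ∑ T ∈ (range n).filter (fun T => Odd T), loc1 n (4 * (n - T) * T) := by
  rw [sum_Fq h, sum_Nq hC h]
  have h1 : ∑ T ∈ range n, WN 1 n T = ∑ T ∈ (range n).filter (fun T => Odd T), WN 1 n T := by
    rw [sum_filter]
    refine sum_congr rfl fun T hT => ?_
    split_ifs with ho
    · rfl
    · unfold WN
      have : (n - T).divisors.filter (2 ∣ ·) = ∅ := by
        rw [filter_eq_empty_iff]
        intro a ha h2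
        have h3 := (Nat.mem_divisors.1 ha).1
        have h4 := h2.trans h3
        have := h.h8
        have := mem_range.1 hT
        rw [Nat.not_odd_iff_even] at ho
        obtain ⟨k, hk⟩ := ho
        omega
      rw [this, sum_empty]
  rw [h1, mul_sum, mul_sum]
  refine sum_congr rfl fun T hT => ?_
  rw [mem_filter, mem_range] at hT
  rw [h2 n h.sq h.h8 T hT.2 hT.1]
  ring

/-- the sum for level fourteen -/
theorem sum_seven (hC : S_C1B) (h2 : S_C27) {n : ℕ} (h : Gn n) (h7 : ¬ 7 ∣ n)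
    (hj : jacobiSym 7 n = 1) :
    ∑ u ∈ un n, (jacobiSym (u : ℤ) n) * (Fq 7 n u) =
      2 * ∑ T ∈ (range n).filter (fun T => Odd T ∧ 7 ∣ T), loc n (4 * (n - T) * T) := by
  rw [sum_Fq h, sum_Nq hC h]
  have h1 : ∑ T ∈ range n, WN 7 n T = ∑ T ∈ (range n).filter (fun T => Odd T ∧ 7 ∣ T), WN 7 n T := by
    rw [sum_filter]
    refine sum_congr rfl fun T hT => ?_
    split_ifs with ho
    · rfl
    · rw [not_and_or] at ho
      unfold WN
      rcases ho with ho | ho
      · have : (n - T).divisors.filter (2 ∣ ·) = ∅ := by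
          rw [filter_eq_empty_iff]
          intro a ha h2
          have h3 := (Nat.mem_divisors.1 ha).1
          have h4 := h2.trans h3
          have := h.h8
          have := mem_range.1 hT
          rw [Nat.not_odd_iff_even] at ho
          obtain ⟨k, hk⟩ := ho
          omega
        rw [this, sum_empty]
      · have : T.divisors.filter (7 ∣ ·) = ∅ := by
          rw [filter_eq_empty_iff]
          intro a ha h2
          exact ho (h2.trans (Nat.mem_divisors.1 ha).1)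
        rw [this]
        simp
  rw [h1, mul_sum, mul_sum]
  refine sum_congr rfl fun T hT => ?_
  rw [mem_filter, mem_range] at hT
  rw [h2 n h.sq h.h8 h7 hj T hT.2.1 hT.2.2 hT.1]
  ring

end Pool.Agent.Y687.N
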